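import Pool.Agent.H95fa.PerLStrip
import Pool.Agent.H26.Chi

/-!
Polynomial bounds for the L-functions of periodic sequences.
-/

namespace Pool.Agent.H95fa

open Complex Filter Topology MeasureTheory ZMod Asymptotics Pool.Agent.H26

/-- `|Γ(1/2 + iy)| ≤ 3 e^{-π|y|/2}`. -/
lemma norm_Gamma_half_le (y : ℝ) :
    ‖Gamma (1 / 2 + y * I)‖ ≤ 3 * Real.exp (-(Real.pi * |y| / 2)) := by
  have h2 : ‖Gamma (1 / 2 + y * I)‖ ^ 2 = Real.pi / Real.cosh (Real.pi * y) := by
    have e := Complex.Gamma_mul_Gamma_one_sub (1 / 2 + y * I)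
    have e1 : (1 : ℂ) - (1 / 2 + y * I) = (starRingEnd ℂ) (1 / 2 + y * I) := by
      apply Complex.ext
      · simp
        norm_num
      · simp
    rw [e1, Complex.Gamma_conj, Complex.mul_conj] at e
    have e2 : Complex.sin (Real.pi * (1 / 2 + y * I)) = Real.cosh (Real.pi * y) := by
      have : (Real.pi : ℂ) * (1 / 2 + y * I) = (Real.pi * y : ℝ) * I + Real.pi / 2 := by
        push_cast; ring
      rw [this, Complex.sin_add_pi_div_two, Complex.cos_mul_I, Complex.ofReal_cosh]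
    rw [e2, Complex.normSq_eq_norm_sq] at e
    exact_mod_cast e
  have h3 : Real.exp (Real.pi * |y|) / 2 ≤ Real.cosh (Real.pi * y) := by
    rw [Real.cosh_eq]
    rcases abs_cases y with ⟨h, _⟩ | ⟨h, _⟩
    · rw [h]; have := Real.exp_pos (-(Real.pi * y)); linarith
    · rw [h, mul_neg]; have := Real.exp_pos (Real.pi * y); linarith
  apply le_of_sq_le_sq _ (by positivity)
  rw [h2, mul_pow, ← Real.exp_nat_mul]
  have e3 : ((2 : ℕ) : ℝ) * -(Real.pi * |y| / 2) = -(Real.pi * |y|) := by push_cast; ring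
  rw [e3, div_le_iff₀ (Real.cosh_pos _)]
  calc Real.pi ≤ 3 ^ 2 * (1 / 2) := by linarith [Real.pi_le_four]
    _ = 3 ^ 2 * (Real.exp (-(Real.pi * |y|)) * (Real.exp (Real.pi * |y|) / 2)) := by
        have : Real.exp (-(Real.pi * |y|)) * Real.exp (Real.pi * |y|) = 1 := by
          rw [← Real.exp_add]; simp
        rw [← mul_div_assoc (Real.exp (-(Real.pi * |y|))), this]
    _ ≤ 3 ^ 2 * (Real.exp (-(Real.pi * |y|)) * Real.cosh (Real.pi * y)) := by gcongr
    _ = _ := by ring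

lemma norm_Gamma_half_add_le_of_le_one {c y : ℝ} (h0 : 0 ≤ c) (h1 : c ≤ 1) (hy : 2 ≤ |y|) :
    ‖Gamma (1 / 2 + y * I + c)‖ ≤ 36 * (1 + |y|) ^ c * Real.exp (-(Real.pi * |y| / 2)) := by
  have him : (1 / 2 + y * I : ℂ).im = y := by simp
  have hre : (1 / 2 + y * I : ℂ).re = 1 / 2 := by simp
  have h := norm_Gamma_add_le_rpow_mul (z := 1 / 2 + y * I) (c := c) (by rw [hre]; norm_num)
    h0 h1 (by rw [him]; exact hy)
  rw [him, hre] at h
  refine h.trans ?_
  have e1 : |y| ^ c ≤ (1 + |y|) ^ c := Real.rpow_le_rpow (abs_nonneg _) (by linarith) h0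
  calc 8 * (1 + 1 / 2) * |y| ^ c * ‖Gamma (1 / 2 + y * I)‖
      ≤ 8 * (1 + 1 / 2) * (1 + |y|) ^ c * (3 * Real.exp (-(Real.pi * |y| / 2))) := by
        gcongr
        exact norm_Gamma_half_le y
    _ = _ := by ring

lemma norm_Gamma_half_add_le {c y : ℝ} (h0 : 0 ≤ c) (h1 : c ≤ 3 / 2) (hy : 2 ≤ |y|) :
    ‖Gamma (1 / 2 + y * I + c)‖ ≤ 36 * (1 + |y|) ^ c * Real.exp (-(Real.pi * |y| / 2)) := by
  rcases le_total c 1 with hc | hc
  · exact norm_Gamma_half_add_le_of_le_one h0 hc hy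
  have h := norm_Gamma_half_add_le_of_le_one (c := c - 1) (y := y) (by linarith) (by linarith) hy
  have hne : (1 / 2 + y * I + ((c - 1 : ℝ) : ℂ)) ≠ 0 := by
    intro h0
    have := congrArg Complex.re h0
    simp at this
    linarith
  have e : 1 / 2 + y * I + (c : ℂ) = (1 / 2 + y * I + ((c - 1 : ℝ) : ℂ)) + 1 := by
    push_cast; ring
  rw [e, Gamma_add_one _ hne, norm_mul]
  have n1 : ‖(1 / 2 + y * I + ((c - 1 : ℝ) : ℂ))‖ ≤ 1 + |y| := by
    refine (Complex.norm_le_abs_re_add_abs_im _).trans ?_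
    have e1 : (1 / 2 + y * I + ((c - 1 : ℝ) : ℂ)).re = c - 1 / 2 := by simp; ring
    have e2 : (1 / 2 + y * I + ((c - 1 : ℝ) : ℂ)).im = y := by simp
    rw [e1, e2, abs_of_nonneg (by linarith)]
    linarith
  have hy0 : 0 < 1 + |y| := by positivity
  have e3 : (1 + |y|) * (1 + |y|) ^ (c - 1) = (1 + |y|) ^ c := by
    nth_rewrite 1 [← Real.rpow_one (1 + |y|)]
    rw [← Real.rpow_add hy0]
    congr 1; ring
  calc _ ≤ (1 + |y|) * (36 * (1 + |y|) ^ (c - 1) * Real.exp (-(Real.pi * |y| / 2))) := by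
        gcongr
    _ = 36 * ((1 + |y|) * (1 + |y|) ^ (c - 1)) * Real.exp (-(Real.pi * |y| / 2)) := by ring
    _ = _ := by rw [e3]

/-- Stirling type upper bound, `1/2 ≤ Re s ≤ 2`. -/
lemma exists_norm_Gamma_le : ∃ C : ℝ, 0 < C ∧ ∀ s : ℂ, 1 / 2 ≤ s.re → s.re ≤ 2 →
    ‖Gamma s‖ ≤ C * (1 + |s.im|) ^ (s.re - 1 / 2) * Real.exp (-(Real.pi * |s.im| / 2)) := by
  have hc : ContinuousOn Real.Gamma (Set.Icc (1 / 2 : ℝ) 2) := by
    intro x hx
    refine (Real.differentiableAt_Gamma fun m => ?_).continuousAt.continuousWithinAt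
    have : (0 : ℝ) ≤ m := Nat.cast_nonneg m
    intro h
    linarith [hx.1]
  obtain ⟨C, hC⟩ := isCompact_Icc.exists_bound_of_continuousOn hc
  refine ⟨max C 1 * Real.exp Real.pi + 36, by positivity, fun s h0 h1 => ?_⟩
  have hm : 0 < max C 1 := by positivity
  have hp : 1 ≤ (1 + |s.im|) ^ (s.re - 1 / 2) :=
    Real.one_le_rpow (by linarith [abs_nonneg s.im]) (by linarith)
  rcases le_total 2 |s.im| with h | h
  · have e : s = 1 / 2 + (s.im : ℂ) * I + ((s.re - 1 / 2 : ℝ) : ℂ) := by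
      apply Complex.ext
      · simp
      · simp
    have h2 := norm_Gamma_half_add_le (c := s.re - 1 / 2) (y := s.im) (by linarith)
      (by linarith) h
    rw [← e] at h2
    refine h2.trans ?_
    gcongr
    have : 0 ≤ max C 1 * Real.exp Real.pi := by positivity
    linarith
  · have h2 : ‖Gamma s‖ ≤ max C 1 := (norm_Gamma_le_re (by linarith)).trans
      ((le_abs_self _).trans ((hC s.re ⟨h0, h1⟩).trans (le_max_left _ _)))
    have h3 : Real.exp (-Real.pi) ≤ Real.exp (-(Real.pi * |s.im| / 2)) := by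
      rw [Real.exp_le_exp]
      have := Real.pi_pos
      nlinarith
    have h4 : Real.exp Real.pi * Real.exp (-Real.pi) = 1 := by
      rw [← Real.exp_add]; simp
    calc ‖Gamma s‖ ≤ max C 1 := h2
      _ = max C 1 * (Real.exp Real.pi * 1 * Real.exp (-Real.pi)) := by rw [mul_one, h4, mul_one]
      _ ≤ max C 1 * (Real.exp Real.pi * (1 + |s.im|) ^ (s.re - 1 / 2) *
          Real.exp (-(Real.pi * |s.im| / 2))) := by gcongr
      _ = (max C 1 * Real.exp Real.pi) * (1 + |s.im|) ^ (s.re - 1 / 2) *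
          Real.exp (-(Real.pi * |s.im| / 2)) := by ring
      _ ≤ _ := by
          gcongr
          linarith

variable {N : ℕ} [NeZero N]

/-- The functional equation as an inequality. -/
lemma exists_functional_bound : ∃ C : ℝ, 0 < C ∧ ∀ (N : ℕ) [NeZero N] (Φ : ZMod N → ℂ)
    (s : ℂ) (D : ℝ), 0 ≤ D → -1 ≤ s.re → s.re ≤ 1 / 2 → s ≠ 0 →
    (∀ Ψ : ZMod N → ℂ, (Ψ = ZMod.dft Φ ∨ Ψ = ZMod.dft fun x => Φ (-x)) →
      ‖LFunction Ψ (1 - s)‖ ≤ D) →
    ‖LFunction Φ s‖ ≤ C * N * (1 + |s.im|) ^ (1 / 2 - s.re) * D := by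
  obtain ⟨CG, hCG0, hCG⟩ := exists_norm_Gamma_le
  refine ⟨2 * CG, by positivity, ?_⟩
  intro N _ Φ s D hD h0 h1 hs0 hΨ
  have hN1 : (1 : ℝ) ≤ N := by exact_mod_cast NeZero.one_le
  set s' : ℂ := 1 - s with hs'
  have hre : s'.re = 1 - s.re := by simp [hs']
  have him : s'.im = -s.im := by simp [hs']
  set y := |s.im| with hy
  have hsn : ∀ n : ℕ, s' ≠ -n := by
    intro n h
    have := congrArg Complex.re h
    rw [hre] at this
    simp at this
    have h2 : (0 : ℝ) ≤ n := Nat.cast_nonneg n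
    linarith
  have him' : |s'.im| = y := by rw [him, abs_neg]
  have hs1 : s' ≠ 1 := by
    intro h
    apply hs0
    rw [hs'] at h
    linear_combination -h
  have e0 : s = 1 - s' := by rw [hs']; ring
  have n1 : ‖(N : ℂ) ^ (s' - 1)‖ ≤ N := by
    rw [Complex.norm_natCast_cpow_of_pos (NeZero.pos N)]
    calc (N : ℝ) ^ (s' - 1).re ≤ (N : ℝ) ^ (1 : ℝ) := by
          refine Real.rpow_le_rpow_of_exponent_le hN1 ?_
          rw [sub_re, hre, one_re]; linarith
      _ = N := Real.rpow_one _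
  have n2 : ‖(2 * (Real.pi : ℂ)) ^ (-s')‖ ≤ 1 := by
    have e : (2 * (Real.pi : ℂ)) = ((2 * Real.pi : ℝ) : ℂ) := by push_cast; ring
    rw [e, Complex.norm_cpow_eq_rpow_re_of_pos (by positivity)]
    refine Real.rpow_le_one_of_one_le_of_nonpos (by linarith [Real.pi_gt_three]) ?_
    rw [neg_re, hre]; linarith
  have n3 : ‖Gamma s'‖ ≤ CG * (1 + y) ^ (1 / 2 - s.re) * Real.exp (-(Real.pi * y / 2)) := by
    have := hCG s' (by rw [hre]; linarith) (by rw [hre]; linarith)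
    rw [him', hre] at this
    have e : 1 - s.re - 1 / 2 = 1 / 2 - s.re := by ring
    rwa [e] at this
  have n4 : ‖cexp (Real.pi * I * s' / 2)‖ ≤ Real.exp (Real.pi * y / 2) := by
    rw [Complex.norm_exp, Real.exp_le_exp]
    have : (Real.pi * I * s' / 2).re = -(Real.pi * s'.im) / 2 := by simp
    rw [this]
    have h1 := neg_abs_le s'.im
    rw [him'] at h1
    have := Real.pi_pos
    nlinarith
  have n5 : ‖cexp (-Real.pi * I * s' / 2)‖ ≤ Real.exp (Real.pi * y / 2) := by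
    rw [Complex.norm_exp, Real.exp_le_exp]
    have : (-Real.pi * I * s' / 2).re = (Real.pi * s'.im / 2) := by simp
    rw [this]
    have h1 := le_abs_self s'.im
    rw [him'] at h1
    have := Real.pi_pos
    nlinarith
  have n8 : ‖cexp (Real.pi * I * s' / 2) * LFunction (ZMod.dft Φ) s' +
      cexp (-Real.pi * I * s' / 2) * LFunction (ZMod.dft fun x => Φ (-x)) s'‖ ≤
      2 * (Real.exp (Real.pi * y / 2) * D) := by
    refine (norm_add_le _ _).trans ?_
    rw [norm_mul, norm_mul, two_mul (Real.exp (Real.pi * y / 2) * _)]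
    gcongr
    · exact hΨ _ (Or.inl rfl)
    · exact hΨ _ (Or.inr rfl)
  have hee : Real.exp (-(Real.pi * y / 2)) * Real.exp (Real.pi * y / 2) = 1 := by
    rw [← Real.exp_add]; simp
  calc ‖LFunction Φ s‖ ≤ N * 1 * (CG * (1 + y) ^ (1 / 2 - s.re) * Real.exp (-(Real.pi * y / 2))) *
        (2 * (Real.exp (Real.pi * y / 2) * D)) := by
        nth_rewrite 1 [e0]
        rw [LFunction_one_sub Φ hsn (Or.inr hs1), norm_mul, norm_mul, norm_mul]
        gcongr
    _ = 2 * CG * N * (1 + y) ^ (1 / 2 - s.re) * D *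
        (Real.exp (-(Real.pi * y / 2)) * Real.exp (Real.pi * y / 2)) := by ring
    _ = _ := by rw [hee, mul_one]

/-- **(D1)** polynomial growth in the strip `-3/4 ≤ Re s ≤ 2`, away from the real axis. -/
theorem exists_norm_LFunction_le : ∃ (C : ℝ) (B : ℕ), 0 < C ∧ 0 < B ∧ ∀ (N : ℕ) [NeZero N]
    (Φ : ZMod N → ℂ), (∀ j, ‖Φ j‖ ≤ 1) → ∀ s : ℂ, -(3 / 4) ≤ s.re → s.re ≤ 2 → 1 ≤ |s.im| →
    ‖LFunction Φ s‖ ≤ C * (N : ℝ) ^ B * (1 + |s.im|) ^ B := by
  obtain ⟨CF, hCF0, hCF⟩ := exists_functional_bound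
  refine ⟨100 + CF * 100, 4, by positivity, by norm_num, ?_⟩
  intro N _ Φ hΦ s h0 h2 h1
  have hN1 : (1 : ℝ) ≤ N := by exact_mod_cast NeZero.one_le
  set y := |s.im| with hy
  have hy1 : 1 ≤ 1 + y := by linarith
  have hright : ∀ (Ψ : ZMod N → ℂ) (B : ℝ) (w : ℂ), (∀ j, ‖Ψ j‖ ≤ B) → 1 / 2 ≤ w.re →
      w.re ≤ 2 → |w.im| = y → ‖LFunction Ψ w‖ ≤ 100 * B * N * (1 + y) ^ 2 := by
    intro Ψ B w hB a1 a2 a3
    have b1 := norm_Lst_right hB a1 a2
    have hw : w ≠ 1 := by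
      intro h
      rw [h] at a3
      simp at a3
      linarith
    rw [a3, Lst_of_ne Ψ hw, norm_mul] at b1
    refine le_trans ?_ b1
    have hd1 : 1 ≤ ‖w - 1‖ := by
      have h1 := Complex.abs_im_le_norm (w - 1)
      have h2 : (w - 1).im = w.im := by simp
      rw [h2, a3] at h1
      linarith
    exact le_mul_of_one_le_left (norm_nonneg _) hd1
  rcases le_total (1 / 2) s.re with hr | hr
  · refine (hright Φ 1 s hΦ hr h2 rfl).trans ?_
    calc 100 * 1 * N * (1 + y) ^ 2 ≤ 100 * 1 * (N : ℝ) ^ 4 * (1 + y) ^ 4 := by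
          have e1 : (N : ℝ) ≤ (N : ℝ) ^ 4 := by
            calc (N : ℝ) = (N : ℝ) ^ 1 := (pow_one _).symm
              _ ≤ (N : ℝ) ^ 4 := pow_le_pow_right₀ hN1 (by norm_num)
          have e2 : (1 + y) ^ 2 ≤ (1 + y) ^ 4 := pow_le_pow_right₀ hy1 (by norm_num)
          gcongr
      _ ≤ _ := by
          gcongr
          linarith
  · have hs0 : s ≠ 0 := by
      intro h
      rw [h] at hy
      simp at hy
      linarith
    have hD : ∀ Ψ : ZMod N → ℂ, (Ψ = ZMod.dft Φ ∨ Ψ = ZMod.dft fun x => Φ (-x)) →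
        ‖LFunction Ψ (1 - s)‖ ≤ 100 * (N * 1) * N * (1 + y) ^ 2 := by
      intro Ψ hΨ
      refine hright Ψ (N * 1) (1 - s) ?_ (by simp; linarith) (by simp; linarith) (by simp [hy])
      rcases hΨ with rfl | rfl
      · exact fun j => norm_dft_le hΦ j
      · exact fun j => norm_dft_le (fun j => hΦ _) j
    refine (hCF N Φ s _ (by positivity) (by linarith) hr hs0 hD).trans ?_
    have e1 : (1 + y) ^ (1 / 2 - s.re) ≤ (1 + y) ^ 2 := by
      rw [← Real.rpow_natCast (1 + y) 2]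
      exact Real.rpow_le_rpow_of_exponent_le hy1 (by push_cast; linarith)
    calc CF * N * (1 + y) ^ (1 / 2 - s.re) * (100 * (N * 1) * N * (1 + y) ^ 2)
        ≤ CF * N * (1 + y) ^ 2 * (100 * (N * 1) * N * (1 + y) ^ 2) := by gcongr
      _ = CF * 100 * (N : ℝ) ^ 3 * (1 + y) ^ 4 := by ring
      _ ≤ (100 + CF * 100) * (N : ℝ) ^ 4 * (1 + y) ^ 4 := by
          have e2 : (N : ℝ) ^ 3 ≤ (N : ℝ) ^ 4 := pow_le_pow_right₀ hN1 (by norm_num)
          gcongr
          linarith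

/-- **(D2)** the exact order on a vertical line `Re s = σ`, `-1 < σ < 0`. -/
theorem exists_norm_LFunction_line {σ : ℝ} (hσ : -1 < σ) (hσ0 : σ < 0) : ∃ C : ℝ, 0 < C ∧
    ∀ (N : ℕ) [NeZero N] (Φ : ZMod N → ℂ), (∀ j, ‖Φ j‖ ≤ 1) → ∀ y : ℝ,
    ‖LFunction Φ (σ + I * y)‖ ≤ C * (N : ℝ) ^ 2 * (1 + |y|) ^ (1 / 2 - σ) := by
  obtain ⟨CF, hCF0, hCF⟩ := exists_functional_bound
  set Zt : ℝ := ∑' n : ℕ, 1 / (n : ℝ) ^ (1 - σ) with hZt
  have hZ0 : 0 ≤ Zt := tsum_nonneg fun n => by positivity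
  refine ⟨CF * (Zt + 1), by positivity, ?_⟩
  intro N _ Φ hΦ y
  have hN1 : (1 : ℝ) ≤ N := by exact_mod_cast NeZero.one_le
  set s : ℂ := σ + I * y with hs
  have hre : s.re = σ := by simp [hs]
  have him : s.im = y := by simp [hs]
  have hs0 : s ≠ 0 := by
    intro h
    have := congrArg Complex.re h
    rw [hre] at this
    simp at this
    linarith
  have hD : ∀ Ψ : ZMod N → ℂ, (Ψ = ZMod.dft Φ ∨ Ψ = ZMod.dft fun x => Φ (-x)) →
      ‖LFunction Ψ (1 - s)‖ ≤ N * Zt := by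
    intro Ψ hΨ
    have hΨ1 : ∀ j, ‖Ψ j‖ ≤ N * 1 := by
      rcases hΨ with rfl | rfl
      · exact fun j => norm_dft_le hΦ j
      · exact fun j => norm_dft_le (fun j => hΦ _) j
    have hre' : (1 - s).re = 1 - σ := by rw [sub_re, one_re, hre]
    rw [LFunction_eq_LSeries Ψ (by rw [hre']; linarith), LSeries, ← tsum_mul_left]
    have hsum : Summable fun n : ℕ => (N : ℝ) * (1 / (n : ℝ) ^ (1 - σ)) :=
      (Real.summable_one_div_nat_rpow.2 (by linarith)).mul_left _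
    refine tsum_of_norm_bounded hsum.hasSum fun n => ?_
    rcases eq_or_ne n 0 with rfl | hn
    · simp only [LSeries.term_zero, norm_zero]
      positivity
    · rw [LSeries.term_of_ne_zero hn, norm_div, Complex.norm_natCast_cpow_of_pos
        (Nat.pos_of_ne_zero hn), hre', div_eq_mul_one_div]
      gcongr
      have := hΨ1 (n : ZMod N)
      rwa [mul_one] at this
  refine (hCF N Φ s _ (by positivity) (by rw [hre]; linarith) (by rw [hre]; linarith) hs0
    hD).trans ?_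
  rw [hre, him]
  calc CF * N * (1 + |y|) ^ (1 / 2 - σ) * (N * Zt)
      = CF * Zt * (N : ℝ) ^ 2 * (1 + |y|) ^ (1 / 2 - σ) := by ring
    _ ≤ _ := by
        gcongr
        linarith

/-- (D2) in the form with `N ^ 4`. -/
theorem exists_norm_LFunction_line' {σ : ℝ} (hσ : -1 < σ) (hσ0 : σ < 0) : ∃ C : ℝ, 0 < C ∧
    ∀ (N : ℕ) [NeZero N] (Φ : ZMod N → ℂ), (∀ j, ‖Φ j‖ ≤ 1) → ∀ y : ℝ,
    ‖LFunction Φ (σ + I * y)‖ ≤ C * (N : ℝ) ^ 4 * (1 + |y|) ^ (1 / 2 - σ) := by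
  obtain ⟨C, hC0, hC⟩ := exists_norm_LFunction_line hσ hσ0
  refine ⟨C, hC0, ?_⟩
  intro N _ Φ hΦ y
  have hN1 : (1 : ℝ) ≤ N := by exact_mod_cast NeZero.one_le
  refine (hC N Φ hΦ y).trans ?_
  have e2 : (N : ℝ) ^ 2 ≤ (N : ℝ) ^ 4 := pow_le_pow_right₀ hN1 (by norm_num)
  gcongr

end Pool.Agent.H95fa
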