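import Pool.Agent.H26.OmDefs
import Pool.Agent.H95fa.LBound

/-!
Twisted products of zeta functions: coefficients, Dirichlet series and bounds.
-/

namespace Pool.Agent.H26

open Complex MeasureTheory Set Filter Topology Pool.Agent.H95fa

lemma term_cpow (a : ℝ) (f : ℕ → ℂ) (w : ℂ) (n : ℕ) :
    LSeries.term (fun n => f n * (n : ℂ) ^ (-(I * a))) w n = LSeries.term f (w + I * a) n := by
  rcases eq_or_ne n 0 with rfl | hn
  · simp
  · rw [LSeries.term_of_ne_zero hn, LSeries.term_of_ne_zero hn]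
    have hn' : (n : ℂ) ≠ 0 := Nat.cast_ne_zero.2 hn
    rw [Complex.cpow_add _ _ hn', Complex.cpow_neg]
    field_simp

lemma LSeries_cpow (a : ℝ) (f : ℕ → ℂ) (w : ℂ) :
    LSeries (fun n => f n * (n : ℂ) ^ (-(I * a))) w = LSeries f (w + I * a) := by
  unfold LSeries
  exact tsum_congr fun n => term_cpow a f w n

lemma summable_cpow (a : ℝ) {f : ℕ → ℂ} {w : ℂ} (h : LSeriesSummable f (w + I * a)) :
    LSeriesSummable (fun n => f n * (n : ℂ) ^ (-(I * a))) w := by
  unfold LSeriesSummable at h ⊢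
  exact h.congr fun n => (term_cpow a f w n).symm

lemma norm_npow_le (a : ℝ) (n : ℕ) : ‖(n : ℂ) ^ (-(I * a))‖ ≤ 1 := by
  rcases eq_or_ne n 0 with rfl | hn
  · rcases eq_or_ne (-(I * (a : ℂ))) 0 with h | h
    · rw [h]; simp
    · simp [Complex.zero_cpow h]
  · rw [Complex.norm_natCast_cpow_of_pos (Nat.pos_of_ne_zero hn)]
    simp

theorem aco_one (l : List ℝ) : aco l 1 = 1 := by
  induction l with
  | nil => simp [aco, LSeries.delta]
  | cons a l ih =>
    simp only [aco, LSeries.convolution_def]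
    simp [ih]

theorem norm_aco_le (l : List ℝ) (n : ℕ) : ‖aco l n‖ ≤ (n : ℝ) ^ l.length := by
  induction l generalizing n with
  | nil =>
    simp only [aco, LSeries.delta, List.length_nil, pow_zero]
    split_ifs <;> simp
  | cons a l ih =>
    simp only [aco, LSeries.convolution_def, List.length_cons]
    rcases Nat.eq_zero_or_pos n with rfl | hn
    · simp
    refine (norm_sum_le _ _).trans ?_
    have h1 : ∀ p ∈ n.divisorsAntidiagonal, ‖(p.1 : ℂ) ^ (-(I * a)) * aco l p.2‖ ≤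
        (n : ℝ) ^ l.length := by
      intro p hp
      rw [norm_mul]
      have h2 : p.2 ≤ n := Nat.divisor_le (Nat.snd_mem_divisors_of_mem_antidiagonal hp)
      calc ‖(p.1 : ℂ) ^ (-(I * a))‖ * ‖aco l p.2‖ ≤ 1 * (p.2 : ℝ) ^ l.length := by
            gcongr
            · exact norm_npow_le a _
            · exact ih _
        _ ≤ (n : ℝ) ^ l.length := by
            rw [one_mul]
            gcongr
    refine (Finset.sum_le_card_nsmul _ _ _ h1).trans ?_
    rw [nsmul_eq_mul, pow_succ']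
    gcongr
    have hc : n.divisorsAntidiagonal.card ≤ n := by
      rw [← Nat.map_div_right_divisors, Finset.card_map]
      exact Nat.card_divisors_le_self n
    exact_mod_cast hc

lemma summable_one_mul {f : ℕ → ℂ} (hf : ∀ n, ‖f n‖ ≤ 1) (a : ℝ) {w : ℂ} (hw : 1 < w.re) :
    LSeriesSummable (fun n => f n * (n : ℂ) ^ (-(I * a))) w := by
  apply summable_cpow
  apply LSeriesSummable_of_bounded_of_one_lt_re (m := 1)
  · intro n _
    exact hf n
  · simpa using hw

lemma summable_aco' (l : List ℝ) {w : ℂ} (hw : 1 < w.re) : LSeriesSummable (aco l) w := by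
  induction l with
  | nil =>
    show Summable (LSeries.term (aco []) w)
    simp only [aco]
    refine summable_of_ne_finset_zero (s := {1}) fun n hn => ?_
    rw [LSeries.term_delta, if_neg (by simpa using hn)]
  | cons a l ih =>
    have h1 := summable_one_mul (f := fun _ => 1) (by simp) a hw
    simp only [one_mul] at h1
    exact h1.convolution ih

theorem summable_aco (l : List ℝ) {c : ℝ} (hc : 1 < c) :
    Summable fun n : ℕ => ‖aco l n‖ * (n : ℝ) ^ (-c) := by
  have h1 : LSeriesSummable (aco l) (c : ℂ) := summable_aco' l (by simpa using hc)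
  have h2 := h1.norm
  refine h2.congr fun n => ?_
  rw [LSeries.norm_term_eq]
  rcases eq_or_ne n 0 with rfl | hn
  · simp only [if_true, Nat.cast_zero]
    rw [Real.zero_rpow (by linarith), mul_zero]
  · rw [if_neg hn, ofReal_re, Real.rpow_neg (Nat.cast_nonneg n), div_eq_mul_inv]

theorem LSeries_aco (l : List ℝ) {w : ℂ} (hw : 1 < w.re) : LSeries (aco l) w = zprod l w := by
  induction l with
  | nil => simp [aco, zprod, LSeries_delta]
  | cons a l ih =>
    have h1 := summable_one_mul (f := fun _ => 1) (by simp) a hw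
    have h3 := LSeries_cpow a (fun _ => 1) w
    simp only [one_mul] at h1 h3
    simp only [aco]
    rw [LSeries_convolution' h1 (summable_aco' l hw), ih, h3]
    unfold zprod
    rw [List.map_cons, List.prod_cons]
    congr 1
    have h4 : 1 < (w + I * a).re := by simpa using hw
    exact LSeries_one_eq_riemannZeta h4

lemma summable_twist (l : List ℝ) {f : ℕ → ℂ} {C : ℝ} (hf : ∀ n, ‖f n‖ ≤ C) {w : ℂ}
    (hw : 1 < w.re) : LSeriesSummable (fun n => aco l n * f n) w := by
  have h1 := (summable_aco' l hw).norm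
  refine Summable.of_norm_bounded (h1.mul_left C) fun n => ?_
  rcases eq_or_ne n 0 with rfl | hn
  · simp
  · rw [LSeries.term_of_ne_zero hn, LSeries.term_of_ne_zero hn, norm_div, norm_div, norm_mul]
    rw [← mul_div_assoc]
    have h3 := hf n
    have h4 := norm_nonneg (aco l n)
    apply div_le_div_of_nonneg_right _ (norm_nonneg _)
    nlinarith

theorem LSeries_aco_twist (l : List ℝ) {N : ℕ} [NeZero N] (Φ : ZMod N → ℂ) {w : ℂ}
    (hw : 1 < w.re) : LSeries (fun n => aco l n * Φ (n : ZMod N)) w = AA l Φ w := by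
  induction l generalizing Φ with
  | nil =>
    simp only [AA]
    have : (fun n : ℕ => aco [] n * Φ (n : ZMod N)) = fun n => Φ 1 * LSeries.delta n := by
      funext n
      simp only [aco, LSeries.delta]
      split_ifs with h
      · subst h; simp
      · simp
    rw [this]
    have h2 := LSeries_smul LSeries.delta (Φ 1) w
    rw [LSeries_delta] at h2
    simpa [Pi.smul_def] using h2
  | cons a l ih =>
    have hbd : ∀ Ψ : ZMod N → ℂ, ∃ C : ℝ, ∀ j, ‖Ψ j‖ ≤ C := fun Ψ =>
      ⟨∑ j, ‖Ψ j‖, fun j => Finset.single_le_sum (f := fun j => ‖Ψ j‖)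
        (fun i _ => norm_nonneg _) (Finset.mem_univ j)⟩
    let F : ZMod N → ℕ → ℂ := fun r n => (Pi.single r (1 : ℂ) : ZMod N → ℂ) (n : ZMod N) *
      (n : ℂ) ^ (-(I * a))
    let G : ZMod N → ℕ → ℂ := fun r n => aco l n * Φ ((n : ZMod N) * r)
    have hF : ∀ r, LSeriesSummable (F r) w := by
      intro r
      apply summable_one_mul _ a hw
      intro n
      by_cases h : (n : ZMod N) = r
      · subst h; simp
      · rw [Pi.single_eq_of_ne h]; simp
    have hG : ∀ r, LSeriesSummable (G r) w := by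
      intro r
      obtain ⟨C, hC⟩ := hbd fun x => Φ (x * r)
      exact summable_twist l (f := fun n => Φ ((n : ZMod N) * r)) (fun n => hC _) hw
    have e1 : (fun n => aco (a :: l) n * Φ (n : ZMod N)) =
        ∑ r : ZMod N, LSeries.convolution (F r) (G r) := by
      funext n
      rw [Finset.sum_apply]
      simp only [aco, LSeries.convolution_def]
      rw [Finset.sum_mul, Finset.sum_comm]
      apply Finset.sum_congr rfl
      intro p hp
      have hp' : (n : ZMod N) = (p.2 : ZMod N) * (p.1 : ZMod N) := by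
        rw [← (Nat.mem_divisorsAntidiagonal.1 hp).1]
        push_cast
        ring
      rw [Finset.sum_eq_single (p.1 : ZMod N)]
      · simp only [F, G, Pi.single_eq_same]
        rw [hp']
        ring
      · intro r _ hr
        simp only [F]
        rw [Pi.single_eq_of_ne (Ne.symm hr)]
        simp
      · intro h; exact absurd (Finset.mem_univ _) h
    rw [e1, LSeries_sum (fun r _ => (hF r).convolution (hG r))]
    simp only [AA]
    apply Finset.sum_congr rfl
    intro r _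
    rw [LSeries_convolution' (hF r) (hG r), ih (fun x => Φ (x * r))]
    congr 1
    have h4 : 1 < (w + I * a).re := by simpa using hw
    rw [ZMod.LFunction_eq_LSeries _ h4, ← LSeries_cpow]

theorem differentiableAt_AA (l : List ℝ) {N : ℕ} [NeZero N] (Φ : ZMod N → ℂ) {w : ℂ}
    (hw : ∀ a ∈ l, w + I * a ≠ 1) : DifferentiableAt ℂ (AA l Φ) w := by
  induction l generalizing Φ with
  | nil => exact differentiableAt_const _
  | cons a l ih =>
    have e : AA (a :: l) Φ = fun w => ∑ r : ZMod N,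
        ZMod.LFunction (Pi.single r (1 : ℂ)) (w + I * a) * AA l (fun x => Φ (x * r)) w := by
      funext w; rfl
    rw [e]
    refine DifferentiableAt.fun_sum fun r _ => ?_
    refine DifferentiableAt.fun_mul ?_ (ih _ fun b hb => hw b (List.mem_cons_of_mem _ hb))
    have h1 := ZMod.differentiableAt_LFunction (Pi.single r (1 : ℂ) : ZMod N → ℂ) (w + I * a)
      (Or.inl (hw a List.mem_cons_self))
    exact h1.comp w (differentiableAt_id.add_const _)

theorem AA_modOne (l : List ℝ) (Φ : ZMod 1 → ℂ) (w : ℂ) : AA l Φ w = Φ 1 * zprod l w := by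
  induction l generalizing Φ with
  | nil => simp [AA, zprod]
  | cons a l ih =>
    simp only [AA]
    rw [Finset.sum_eq_single (0 : ZMod 1)]
    · rw [ih, ZMod.LFunction_modOne_eq]
      unfold zprod
      rw [List.map_cons, List.prod_cons]
      have e1 : (1 * 0 : ZMod 1) = 1 := Subsingleton.elim _ _
      have e2 : (Pi.single (0 : ZMod 1) (1 : ℂ) : ZMod 1 → ℂ) 1 = 1 := by
        have : (1 : ZMod 1) = 0 := Subsingleton.elim _ _
        rw [this, Pi.single_eq_same]
      have e3 : (Pi.single (0 : ZMod 1) (1 : ℂ) : ZMod 1 → ℂ) 0 = 1 := Pi.single_eq_same _ _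
      simp only [e1, e2, e3]
      ring
    · intro b _ hb; exact absurd (Subsingleton.elim _ _) hb
    · intro h; exact absurd (Finset.mem_univ _) h

/-- The inductive bound. -/
lemma norm_AA_le_of (l : List ℝ) {N : ℕ} [NeZero N] {w : ℂ} (D : ℝ → ℝ)
    (hD0 : ∀ a ∈ l, 0 ≤ D a)
    (hD : ∀ a ∈ l, ∀ Ψ : ZMod N → ℂ, (∀ j, ‖Ψ j‖ ≤ 1) → ‖ZMod.LFunction Ψ (w + I * a)‖ ≤ D a)
    (Φ : ZMod N → ℂ) (hΦ : ∀ j, ‖Φ j‖ ≤ 1) :
    ‖AA l Φ w‖ ≤ (N : ℝ) ^ l.length * (l.map D).prod := by
  induction l generalizing Φ with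
  | nil => simpa [AA] using hΦ 1
  | cons a l ih =>
    simp only [AA, List.length_cons, List.map_cons, List.prod_cons]
    refine (norm_sum_le _ _).trans ?_
    have hprod : 0 ≤ (l.map D).prod := by
      apply List.prod_nonneg
      intro x hx
      obtain ⟨b, hb, rfl⟩ := List.mem_map.1 hx
      exact hD0 b (List.mem_cons_of_mem _ hb)
    have h1 : ∀ r ∈ (Finset.univ : Finset (ZMod N)),
        ‖ZMod.LFunction (Pi.single r (1 : ℂ)) (w + I * a) * AA l (fun x => Φ (x * r)) w‖ ≤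
        D a * ((N : ℝ) ^ l.length * (l.map D).prod) := by
      intro r _
      rw [norm_mul]
      have hDa := hD0 a List.mem_cons_self
      gcongr
      · apply hD a List.mem_cons_self
        intro j
        by_cases h : j = r
        · subst h; simp
        · rw [Pi.single_eq_of_ne h]; simp
      · exact ih (fun b hb => hD0 b (List.mem_cons_of_mem _ hb))
          (fun b hb => hD b (List.mem_cons_of_mem _ hb)) _ fun j => hΦ _
    refine (Finset.sum_le_card_nsmul _ _ _ h1).trans (le_of_eq ?_)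
    rw [nsmul_eq_mul, Finset.card_univ, ZMod.card]
    ring

lemma prod_map_le_pow (l : List ℝ) (D : ℝ → ℝ) {M : ℝ} (h0 : ∀ a ∈ l, 0 ≤ D a)
    (h : ∀ a ∈ l, D a ≤ M) : (l.map D).prod ≤ M ^ l.length := by
  induction l with
  | nil => simp
  | cons a l ih =>
    rw [List.map_cons, List.prod_cons, List.length_cons, pow_succ']
    have h1 := h0 a List.mem_cons_self
    have h2 := h a List.mem_cons_self
    have h3 : 0 ≤ (l.map D).prod := by
      apply List.prod_nonneg
      intro x hx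
      obtain ⟨b, hb, rfl⟩ := List.mem_map.1 hx
      exact h0 b (List.mem_cons_of_mem _ hb)
    have h4 := ih (fun b hb => h0 b (List.mem_cons_of_mem _ hb))
      (fun b hb => h b (List.mem_cons_of_mem _ hb))
    have h5 : 0 ≤ M := h1.trans h2
    gcongr

/-- Combination step: a bound `C N^b (1+|Im|)^b` for each factor. -/
lemma norm_AA_le_of' (l : List ℝ) (C : ℝ) (hC : 0 ≤ C) (b : ℕ) {N : ℕ} [NeZero N] {w : ℂ}
    (hD : ∀ a ∈ l, ∀ Ψ : ZMod N → ℂ, (∀ j, ‖Ψ j‖ ≤ 1) →
      ‖ZMod.LFunction Ψ (w + I * a)‖ ≤ C * (N : ℝ) ^ b * (1 + |w.im + a|) ^ b)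
    (Φ : ZMod N → ℂ) (hΦ : ∀ j, ‖Φ j‖ ≤ 1) :
    ‖AA l Φ w‖ ≤ (C * (1 + (l.map fun a => |a|).sum) ^ b + 1) ^ l.length *
      (N : ℝ) ^ ((b + 1) * l.length) * (1 + |w.im|) ^ ((b + 1) * l.length) := by
  have hN1 : (1 : ℝ) ≤ N := by exact_mod_cast NeZero.one_le
  have hs0 : 0 ≤ (l.map fun a => |a|).sum := by
    apply List.sum_nonneg
    intro x hx
    obtain ⟨a, _, rfl⟩ := List.mem_map.1 hx
    exact abs_nonneg a
  set S := (l.map fun a => |a|).sum with hS
  have h1 := norm_AA_le_of l (fun a => C * (N : ℝ) ^ b * (1 + |w.im + a|) ^ b)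
    (fun a _ => by positivity) hD Φ hΦ
  have h2 := prod_map_le_pow l (fun a => C * (N : ℝ) ^ b * (1 + |w.im + a|) ^ b)
    (M := (C * (1 + S) ^ b + 1) * (N : ℝ) ^ b * (1 + |w.im|) ^ b) (fun a _ => by positivity) (by
      intro a ha
      have ha' : |a| ≤ S := by
        rw [hS]
        exact List.single_le_sum (by
          intro x hx
          obtain ⟨a, _, rfl⟩ := List.mem_map.1 hx
          exact abs_nonneg a) _ (List.mem_map.2 ⟨a, ha, rfl⟩)
      have h3 : 1 + |w.im + a| ≤ (1 + S) * (1 + |w.im|) := by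
        have := abs_add_le w.im a
        nlinarith [abs_nonneg w.im, abs_nonneg a]
      calc C * (N : ℝ) ^ b * (1 + |w.im + a|) ^ b
          ≤ C * (N : ℝ) ^ b * ((1 + S) * (1 + |w.im|)) ^ b := by gcongr
        _ = C * (1 + S) ^ b * (N : ℝ) ^ b * (1 + |w.im|) ^ b := by rw [mul_pow]; ring
        _ ≤ _ := by gcongr; linarith)
  refine h1.trans ?_
  have h4 : (1 : ℝ) ≤ (1 + |w.im|) := by linarith [abs_nonneg w.im]
  calc (N : ℝ) ^ l.length * (l.map fun a => C * (N : ℝ) ^ b * (1 + |w.im + a|) ^ b).prod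
      ≤ (N : ℝ) ^ l.length *
        ((C * (1 + S) ^ b + 1) * (N : ℝ) ^ b * (1 + |w.im|) ^ b) ^ l.length := by gcongr
    _ = (C * (1 + S) ^ b + 1) ^ l.length * (N : ℝ) ^ ((b + 1) * l.length) *
        (1 + |w.im|) ^ (b * l.length) := by
        rw [mul_pow, mul_pow, ← pow_mul, ← pow_mul, add_mul b 1 l.length, one_mul, pow_add]; ring
    _ ≤ _ := by
        gcongr
        omega

/-- crude bound away from the real axis (the exponent B depends only on the length of l!) -/
theorem exists_norm_AA_strip (n : ℕ) : ∃ B : ℕ, ∀ l : List ℝ, l.length = n → ∃ C : ℝ, 0 < C ∧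
    ∀ (N : ℕ) [NeZero N] (Φ : ZMod N → ℂ), (∀ j, ‖Φ j‖ ≤ 1) → ∀ w : ℂ, -(3 / 4) ≤ w.re → w.re ≤ 2 →
    (∀ a ∈ l, 1 + |a| ≤ |w.im|) → ‖AA l Φ w‖ ≤ C * N ^ B * (1 + |w.im|) ^ B := by
  obtain ⟨C, b, hC, hb, h⟩ := exists_norm_LFunction_le
  refine ⟨(b + 1) * n, fun l hl => ⟨(C * (1 + (l.map fun a => |a|).sum) ^ b + 1) ^ l.length, ?_, ?_⟩⟩
  · have hs0 : 0 ≤ (l.map fun a => |a|).sum := by
      apply List.sum_nonneg
      intro x hx
      obtain ⟨a, _, rfl⟩ := List.mem_map.1 hx
      exact abs_nonneg a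
    positivity
  · intro N _ Φ hΦ w h1 h2 h3
    rw [← hl]
    apply norm_AA_le_of' l C hC.le b _ Φ hΦ
    intro a ha Ψ hΨ
    have e : (w + I * a).im = w.im + a := by simp
    have e' : (w + I * a).re = w.re := by simp
    have := h N Ψ hΨ (w + I * a) (by rw [e']; exact h1) (by rw [e']; exact h2) (by
      rw [e]
      have h4 := h3 a ha
      have h5 : |w.im| - |a| ≤ |w.im + a| := by
        have := abs_sub_abs_le_abs_sub w.im (-a)
        rwa [abs_neg, sub_neg_eq_add] at this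
      linarith)
    rwa [e] at this

/-- uniform bound to the left -/
lemma exists_norm_LFunction_left : ∃ C : ℝ, 0 < C ∧
    ∀ (N : ℕ) [NeZero N] (Φ : ZMod N → ℂ), (∀ j, ‖Φ j‖ ≤ 1) → ∀ s : ℂ, -(3 / 4) ≤ s.re →
    s.re ≤ -(1 / 4) → ‖ZMod.LFunction Φ s‖ ≤ C * (N : ℝ) ^ 2 * (1 + |s.im|) ^ 2 := by
  obtain ⟨CF, hCF0, hCF⟩ := exists_functional_bound
  set Zt : ℝ := ∑' n : ℕ, 1 / (n : ℝ) ^ (5 / 4 : ℝ) with hZt
  have hZ0 : 0 ≤ Zt := tsum_nonneg fun n => by positivity
  refine ⟨CF * (Zt + 1), by positivity, ?_⟩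
  intro N _ Φ hΦ s hs1 hs2
  have hN1 : (1 : ℝ) ≤ N := by exact_mod_cast NeZero.one_le
  have hs0 : s ≠ 0 := by
    intro h
    rw [h] at hs2
    simp at hs2
    linarith
  have hD : ∀ Ψ : ZMod N → ℂ, (Ψ = ZMod.dft Φ ∨ Ψ = ZMod.dft fun x => Φ (-x)) →
      ‖ZMod.LFunction Ψ (1 - s)‖ ≤ N * Zt := by
    intro Ψ hΨ
    have hΨ1 : ∀ j, ‖Ψ j‖ ≤ N * 1 := by
      rcases hΨ with rfl | rfl
      · exact fun j => norm_dft_le hΦ j
      · exact fun j => norm_dft_le (fun j => hΦ _) j
    have hre' : (1 - s).re = 1 - s.re := by rw [sub_re, one_re]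
    rw [ZMod.LFunction_eq_LSeries Ψ (by rw [hre']; linarith), LSeries, ← tsum_mul_left]
    have hsum : Summable fun n : ℕ => (N : ℝ) * (1 / (n : ℝ) ^ (5 / 4 : ℝ)) :=
      (Real.summable_one_div_nat_rpow.2 (by norm_num)).mul_left _
    refine tsum_of_norm_bounded hsum.hasSum fun n => ?_
    rcases eq_or_ne n 0 with rfl | hn
    · simp only [LSeries.term_zero, norm_zero]
      positivity
    · rw [LSeries.term_of_ne_zero hn, norm_div, Complex.norm_natCast_cpow_of_pos
        (Nat.pos_of_ne_zero hn), hre', div_eq_mul_one_div]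
      have hn1 : (1 : ℝ) ≤ n := by exact_mod_cast Nat.one_le_iff_ne_zero.2 hn
      have h5 : (n : ℝ) ^ (5 / 4 : ℝ) ≤ (n : ℝ) ^ (1 - s.re) :=
        Real.rpow_le_rpow_of_exponent_le hn1 (by linarith)
      have h6 := hΨ1 (n : ZMod N)
      rw [mul_one] at h6
      gcongr
  refine (hCF N Φ s _ (by positivity) (by linarith) (by linarith) hs0 hD).trans ?_
  have e1 : (1 + |s.im|) ^ (1 / 2 - s.re) ≤ (1 + |s.im|) ^ 2 := by
    rw [← Real.rpow_natCast (1 + |s.im|) 2]
    exact Real.rpow_le_rpow_of_exponent_le (by linarith [abs_nonneg s.im])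
      (by push_cast; linarith)
  calc CF * N * (1 + |s.im|) ^ (1 / 2 - s.re) * (N * Zt)
      ≤ CF * N * (1 + |s.im|) ^ 2 * (N * Zt) := by gcongr
    _ = CF * Zt * (N : ℝ) ^ 2 * (1 + |s.im|) ^ 2 := by ring
    _ ≤ _ := by
        gcongr
        linarith

/-- crude bound to the left -/
theorem exists_norm_AA_left (n : ℕ) : ∃ B : ℕ, ∀ l : List ℝ, l.length = n → ∃ C : ℝ, 0 < C ∧
    ∀ (N : ℕ) [NeZero N] (Φ : ZMod N → ℂ), (∀ j, ‖Φ j‖ ≤ 1) → ∀ w : ℂ, -(3 / 4) ≤ w.re →
    w.re ≤ -(1 / 4) → ‖AA l Φ w‖ ≤ C * N ^ B * (1 + |w.im|) ^ B := by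
  obtain ⟨C, hC, h⟩ := exists_norm_LFunction_left
  refine ⟨(2 + 1) * n, fun l hl => ⟨(C * (1 + (l.map fun a => |a|).sum) ^ 2 + 1) ^ l.length, ?_, ?_⟩⟩
  · have hs0 : 0 ≤ (l.map fun a => |a|).sum := by
      apply List.sum_nonneg
      intro x hx
      obtain ⟨a, _, rfl⟩ := List.mem_map.1 hx
      exact abs_nonneg a
    positivity
  · intro N _ Φ hΦ w h1 h2
    rw [← hl]
    apply norm_AA_le_of' l C hC.le 2 _ Φ hΦ
    intro a ha Ψ hΨ
    have e : (w + I * a).im = w.im + a := by simp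
    have e' : (w + I * a).re = w.re := by simp
    have := h N Ψ hΨ (w + I * a) (by rw [e']; exact h1) (by rw [e']; exact h2)
    rwa [e] at this

/-- sharp bound on a line (C and B depend only on the length of l) -/
theorem exists_norm_AA_line (n : ℕ) {σ : ℝ} (hσ : -1 < σ) (hσ0 : σ < 0) :
    ∃ (C : ℝ) (B : ℕ), 0 < C ∧ ∀ l : List ℝ, l.length = n → ∀ (N : ℕ) [NeZero N] (Φ : ZMod N → ℂ),
    (∀ j, ‖Φ j‖ ≤ 1) → ∀ v : ℝ, ‖AA l Φ (σ + v * I)‖ ≤
      C * N ^ B * (l.map fun a : ℝ => (1 + |v + a|) ^ (1 / 2 - σ)).prod := by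
  obtain ⟨C, hC, h⟩ := exists_norm_LFunction_line hσ hσ0
  refine ⟨C ^ n, 3 * n, by positivity, ?_⟩
  intro l hl N _ Φ hΦ v
  have h1 := norm_AA_le_of l (w := (σ : ℂ) + v * I)
    (fun a => C * (N : ℝ) ^ 2 * (1 + |v + a|) ^ (1 / 2 - σ))
    (fun a _ => by positivity) (by
      intro a _ Ψ hΨ
      have := h N Ψ hΨ (v + a)
      have e : (σ : ℂ) + v * I + I * a = σ + I * ((v + a : ℝ) : ℂ) := by push_cast; ring
      rw [e]
      exact this) Φ hΦ
  refine h1.trans (le_of_eq ?_)
  have e2 : (l.map fun a => C * (N : ℝ) ^ 2 * (1 + |v + a|) ^ (1 / 2 - σ)).prod =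
      (C * (N : ℝ) ^ 2) ^ l.length * (l.map fun a : ℝ => (1 + |v + a|) ^ (1 / 2 - σ)).prod := by
    clear h1 hl
    induction l with
    | nil => simp
    | cons a l ih =>
      rw [List.map_cons, List.prod_cons, ih, List.map_cons, List.prod_cons, List.length_cons]
      ring
  rw [e2, hl, mul_pow, ← pow_mul]
  have e3 : (N : ℝ) ^ (3 * n) = (N : ℝ) ^ n * (N : ℝ) ^ (2 * n) := by
    rw [← pow_add]; congr 1; ring
  rw [e3]
  ring

end Pool.Agent.H26
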