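import Pool.Agent.H95fa.GammaCross

/-!
The main term is bounded in a sector, uniformly for well spaced shifts.
-/

namespace Pool.Agent.H95fa

open Complex Finset Filter Topology Pool.Agent.H26

lemma gamma_ne_of_im_ne {w : ℂ} (h : w.im ≠ 0) : Gamma w ≠ 0 := by
  refine Gamma_ne_zero fun m hm => h ?_
  rw [hm]
  simp

lemma chi_mul_chi' {s : ℂ} (h : s.im ≠ 0) : chi s * chi (1 - s) = 1 := by
  unfold chi
  have hpi : (Real.pi : ℂ) ≠ 0 := by exact_mod_cast Real.pi_ne_zero
  have hG1 : Gamma (s / 2) ≠ 0 := gamma_ne_of_im_ne (by simpa using h)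
  have hG2 : Gamma ((1 - s) / 2) ≠ 0 := gamma_ne_of_im_ne (by simpa using h)
  have e1 : (1 - (1 - s)) / 2 = s / 2 := by ring
  have e2 : (Real.pi : ℂ) ^ (s - 1 / 2) * (Real.pi : ℂ) ^ (1 - s - 1 / 2) = 1 := by
    rw [← Complex.cpow_add _ _ hpi]
    have : s - 1 / 2 + (1 - s - 1 / 2) = 0 := by ring
    rw [this, Complex.cpow_zero]
  rw [e1]
  calc _ = ((Real.pi : ℂ) ^ (s - 1 / 2) * (Real.pi : ℂ) ^ (1 - s - 1 / 2)) *
        (Gamma ((1 - s) / 2) * (Gamma ((1 - s) / 2))⁻¹) * (Gamma (s / 2) * (Gamma (s / 2))⁻¹) := by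
        ring
    _ = 1 := by rw [e2, mul_inv_cancel₀ hG2, mul_inv_cancel₀ hG1]; ring

/-- `χ(1/2 - i(t+g)) χ(1/2 + i(t+g)) = 1` for `Re (t + g) ≠ 0`. -/
lemma chi_mul_X {t g : ℂ} (h : (t + g).re ≠ 0) :
    chi (1 / 2 - I * (t + g)) * chi (1 / 2 + I * (t + g)) = 1 := by
  have h1 : (1 / 2 + I * (t + g)).im ≠ 0 := by
    simpa using h
  have := chi_mul_chi' h1
  have e : 1 - (1 / 2 + I * (t + g)) = 1 / 2 - I * (t + g) := by ring
  rw [e] at this
  rw [mul_comm]
  exact this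

/-- the admissible shifts -/
def KK (k : ℕ) (M : ℝ) : Set (Fin k ⊕ Fin k → ℝ) :=
  {γ | (∀ i, 1 ≤ γ i ∧ γ i ≤ M) ∧ ∀ i j, i ≠ j → 1 ≤ |γ i - γ j|}

lemma isCompact_KK (k : ℕ) (M : ℝ) : IsCompact (KK k M) := by
  have h1 : KK k M = (Set.pi Set.univ fun _ => Set.Icc 1 M) ∩
      ⋂ i, ⋂ j, {γ : Fin k ⊕ Fin k → ℝ | i ≠ j → 1 ≤ |γ i - γ j|} := by
    ext γ
    constructor
    · rintro ⟨h1, h2⟩
      exact ⟨fun i _ => h1 i, Set.mem_iInter.2 fun i => Set.mem_iInter.2 fun j => h2 i j⟩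
    · rintro ⟨h1, h2⟩
      exact ⟨fun i => h1 i trivial,
        fun i j => Set.mem_iInter.1 (Set.mem_iInter.1 h2 i) j⟩
  rw [h1]
  refine IsCompact.inter_right (isCompact_univ_pi fun _ => isCompact_Icc) ?_
  refine isClosed_iInter fun i => isClosed_iInter fun j => ?_
  by_cases hij : i = j
  · simp [hij]
  · have : {γ : Fin k ⊕ Fin k → ℝ | i ≠ j → 1 ≤ |γ i - γ j|} = {γ | 1 ≤ |γ i - γ j|} := by
      ext γ; simp [hij]
    rw [this]
    exact isClosed_le continuous_const (by fun_prop)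

lemma KK_injective {k : ℕ} {M : ℝ} {γ : Fin k ⊕ Fin k → ℝ} (hγ : γ ∈ KK k M) :
    Function.Injective γ := by
  intro i j hij
  by_contra h
  have := hγ.2 i j h
  rw [hij, sub_self, abs_zero] at this
  linarith

lemma exists_zetaAB_bound_KK (k : ℕ) (M : ℝ) (S : Finset (Fin k ⊕ Fin k)) :
    ∃ C : ℝ, 0 ≤ C ∧ ∀ γ ∈ KK k M, ‖zetaAB S (fun i => (γ i : ℂ))‖ ≤ C := by
  have hc : ContinuousOn (fun γ : Fin k ⊕ Fin k → ℝ => zetaAB S (fun i => (γ i : ℂ)))
      (KK k M) := by
    intro γ hγ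
    have h1 : ContinuousAt (zetaAB S) (fun i => (γ i : ℂ)) := by
      refine continuousAt_zetaAB S (fun i => by simp) ?_
      intro i j hij
      exact KK_injective hγ (Complex.ofReal_injective hij)
    have h2 : ContinuousAt (fun γ : Fin k ⊕ Fin k → ℝ => (fun i => (γ i : ℂ))) γ :=
      (continuous_pi fun i => continuous_ofReal.comp (continuous_apply i)).continuousAt
    exact (ContinuousAt.comp (f := fun γ : Fin k ⊕ Fin k → ℝ => (fun i => (γ i : ℂ)))
      h1 h2).continuousWithinAt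
  obtain ⟨C, hC⟩ := (isCompact_KK k M).exists_bound_of_continuousOn hc
  exact ⟨max C 0, le_max_right _ _, fun γ hγ => (hC γ hγ).trans (le_max_left _ _)⟩

/-- the number of swapped coordinates is the same on both sides -/
lemma card_swap {k : ℕ} {S : Finset (Fin k ⊕ Fin k)} (hS : S.card = k) :
    (univ.filter fun j : Fin k => Sum.inr j ∈ S).card =
      (univ.filter fun l : Fin k => ¬ Sum.inl l ∈ S).card := by
  have h1 : (univ.filter fun l : Fin k => Sum.inl l ∈ S).card +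
      (univ.filter fun l : Fin k => ¬ Sum.inl l ∈ S).card = k := by
    rw [card_filter_add_card_filter_not, card_univ, Fintype.card_fin]
  have h2 : (univ.filter fun l : Fin k => Sum.inl l ∈ S).card +
      (univ.filter fun j : Fin k => Sum.inr j ∈ S).card = k := by
    refine Eq.trans ?_ hS
    have e : S.card = ((univ : Finset (Fin k ⊕ Fin k)).filter fun i => i ∈ S).card := by
      congr 1
      ext i
      simp
    rw [e, card_filter, card_filter, card_filter, Fintype.sum_sum_type]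
  omega

lemma norm_G_le_sector {k : ℕ} {M : ℝ} {S : Finset (Fin k ⊕ Fin k)}
    (hS : S.card = k) {γ : Fin k ⊕ Fin k → ℝ} (hγ : γ ∈ KK k M) {t : ℂ} (ht : t ∈ Sec) :
    ‖G S (fun i => (γ i : ℂ)) t‖ ≤ Real.exp (18 * M) ^ (2 * k) := by
  rcases Nat.eq_zero_or_pos k with hk | hk
  · subst hk
    simp [G]
  have hM : 1 ≤ M := (hγ.1 (Sum.inl ⟨0, hk⟩)).1.trans (hγ.1 (Sum.inl ⟨0, hk⟩)).2
  set C := Real.exp (18 * M) with hC
  have hC1 : 1 ≤ C := Real.one_le_exp (by linarith)
  set x0 := ‖chi (1 / 2 + I * (t + ((1 : ℝ) : ℂ)))‖ with hx0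
  have hx : ∀ g : ℝ, 1 ≤ g → (t + (g : ℂ)).re ≠ 0 := by
    intro g hg
    have := ht.1
    simp
    linarith
  have hx0pos : 0 < x0 := by
    rw [hx0, norm_pos_iff]
    intro h
    have := chi_mul_X (hx 1 le_rfl)
    rw [h, mul_zero] at this
    exact zero_ne_one this
  have up : ∀ i, ‖chi (1 / 2 + I * (t + γ i))‖ ≤ C * x0 := fun i =>
    norm_chi_ratio ht (hγ.1 i).1 (hγ.1 i).2 le_rfl hM
  have lo : ∀ i, ‖chi (1 / 2 - I * (t + γ i))‖ ≤ C * x0⁻¹ := by
    intro i
    have h1 : x0 ≤ C * ‖chi (1 / 2 + I * (t + γ i))‖ :=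
      norm_chi_ratio ht le_rfl hM (hγ.1 i).1 (hγ.1 i).2
    have h2 := congrArg norm (chi_mul_X (hx _ (hγ.1 i).1))
    rw [norm_mul, norm_one] at h2
    have h3 : 0 ≤ ‖chi (1 / 2 - I * (t + γ i))‖ := norm_nonneg _
    rw [← div_eq_mul_inv, le_div_iff₀ hx0pos]
    calc _ ≤ ‖chi (1 / 2 - I * (t + γ i))‖ * (C * ‖chi (1 / 2 + I * (t + γ i))‖) := by gcongr
      _ = C * (‖chi (1 / 2 - I * (t + γ i))‖ * ‖chi (1 / 2 + I * (t + γ i))‖) := by ring
      _ = C := by rw [h2, mul_one]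
  set n := (univ.filter fun j : Fin k => Sum.inr j ∈ S).card with hn
  have hnk : n ≤ k := by
    rw [hn]
    exact (card_filter_le _ _).trans (by rw [card_univ, Fintype.card_fin])
  unfold G
  rw [norm_mul, norm_prod, norm_prod]
  have e1 : ∏ j : Fin k, ‖if Sum.inr j ∈ S then chi (1 / 2 - I * (t + γ (Sum.inr j))) else 1‖ ≤
      (C * x0⁻¹) ^ n := by
    calc _ ≤ ∏ j : Fin k, (if Sum.inr j ∈ S then C * x0⁻¹ else 1) := by
          refine prod_le_prod (fun _ _ => norm_nonneg _) fun j _ => ?_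
          split_ifs
          · exact lo _
          · rw [norm_one]
      _ = _ := by
          rw [prod_ite, prod_const_one, mul_one, prod_const]
  have e2 : ∏ l : Fin k, ‖if Sum.inl l ∈ S then 1 else chi (1 / 2 + I * (t + γ (Sum.inl l)))‖ ≤
      (C * x0) ^ n := by
    calc _ ≤ ∏ l : Fin k, (if Sum.inl l ∈ S then 1 else C * x0) := by
          refine prod_le_prod (fun _ _ => norm_nonneg _) fun l _ => ?_
          split_ifs
          · rw [norm_one]
          · exact up _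
      _ = _ := by
          rw [prod_ite, prod_const_one, one_mul, prod_const, ← card_swap hS]
  calc _ ≤ (C * x0⁻¹) ^ n * (C * x0) ^ n := by
        refine mul_le_mul e1 e2 (prod_nonneg fun _ _ => norm_nonneg _) (by positivity)
    _ = C ^ (2 * n) := by
        rw [← mul_pow]
        have : C * x0⁻¹ * (C * x0) = C ^ 2 := by field_simp
        rw [this, ← pow_mul]
    _ ≤ C ^ (2 * k) := pow_le_pow_right₀ hC1 (by omega)

/-- **[E]** The main term is bounded in the sector, uniformly in the shifts. -/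
theorem exists_Qsum_sector_bound (k : ℕ) (M : ℝ) : ∃ C : ℝ, 0 ≤ C ∧ ∀ γ ∈ KK k M, ∀ t ∈ Sec,
    ‖Qsum (fun i => (γ i : ℂ)) t‖ ≤ C := by
  choose B hB0 hB using fun S => exists_zetaAB_bound_KK k M S
  refine ⟨∑ S ∈ (univ : Finset (Fin k ⊕ Fin k)).powersetCard k,
    Real.exp (18 * M) ^ (2 * k) * B S, sum_nonneg fun S _ => mul_nonneg (by positivity) (hB0 S),
    fun γ hγ t ht => ?_⟩
  unfold Qsum
  refine (norm_sum_le _ _).trans (sum_le_sum fun S hS => ?_)
  rw [norm_mul]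
  exact mul_le_mul (norm_G_le_sector (mem_powersetCard.1 hS).2 hγ ht) (hB S γ hγ)
    (norm_nonneg _) (by positivity)

lemma differentiableAt_chi_of_ne {s : ℂ} (h : ∀ m : ℕ, (1 - s) / 2 ≠ -m) :
    DifferentiableAt ℂ chi s := by
  have e : chi = fun s => (Real.pi : ℂ) ^ (s - 1 / 2) * Gamma ((1 - s) / 2) *
      (Gamma (s / 2))⁻¹ := by
    funext s; rw [chi, div_eq_mul_inv]
  rw [e]
  have hpi : (Real.pi : ℂ) ≠ 0 := by exact_mod_cast Real.pi_ne_zero
  have hG : DifferentiableAt ℂ (fun s : ℂ => Gamma ((1 - s) / 2)) s := by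
    have h1 : DifferentiableAt ℂ Gamma ((1 - s) / 2) := differentiableAt_Gamma _ h
    exact h1.comp s (by fun_prop)
  have hG2 : DifferentiableAt ℂ (fun s : ℂ => (Gamma (s / 2))⁻¹) s :=
    (differentiable_one_div_Gamma.comp (by fun_prop : Differentiable ℂ fun s : ℂ => s / 2)) s
  have hp : DifferentiableAt ℂ (fun s : ℂ => (Real.pi : ℂ) ^ (s - 1 / 2)) s := by
    refine DifferentiableAt.const_cpow (by fun_prop) (Or.inl hpi)
  exact (hp.mul hG).mul hG2

lemma differentiableAt_chi_of_im {s : ℂ} (h : s.im ≠ 0) : DifferentiableAt ℂ chi s := by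
  refine differentiableAt_chi_of_ne fun m hm => h ?_
  have := congrArg Complex.im hm
  simpa using this

/-- The region where the main term is analytic (for shifts `≥ 1`). -/
def Reg : Set ℂ := {t | -(1 / 2) < t.re ∧ t.im < 1 / 4}

lemma isOpen_Reg : IsOpen Reg :=
  (isOpen_lt continuous_const continuous_re).inter (isOpen_lt continuous_im continuous_const)

lemma differentiableAt_G {k : ℕ} (S : Finset (Fin k ⊕ Fin k)) {γ : Fin k ⊕ Fin k → ℝ}
    (hγ : ∀ i, 1 ≤ γ i) {t : ℂ} (ht : t ∈ Reg) :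
    DifferentiableAt ℂ (fun t => G S (fun i => (γ i : ℂ)) t) t := by
  have hre : ∀ i, (t + (γ i : ℂ)).re ≠ 0 := by
    intro i
    have h1 := hγ i
    have h2 := ht.1
    simp
    linarith
  unfold G
  refine DifferentiableAt.fun_mul ?_ ?_
  · refine DifferentiableAt.fun_finsetProd fun j _ => ?_
    split_ifs
    · refine DifferentiableAt.comp t (g := chi)
        (f := fun t => 1 / 2 - I * (t + (γ (Sum.inr j) : ℂ))) ?_ (by fun_prop)
      refine differentiableAt_chi_of_im ?_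
      have h1 := hre (Sum.inr j)
      have h2 : (1 / 2 - I * (t + (γ (Sum.inr j) : ℂ))).im = -(t + (γ (Sum.inr j) : ℂ)).re := by
        simp
      rw [h2]
      exact neg_ne_zero.2 h1
    · exact differentiableAt_const _
  · refine DifferentiableAt.fun_finsetProd fun l _ => ?_
    split_ifs
    · exact differentiableAt_const _
    · refine DifferentiableAt.comp t (g := chi)
        (f := fun t => 1 / 2 + I * (t + (γ (Sum.inl l) : ℂ))) ?_ (by fun_prop)
      refine differentiableAt_chi_of_im ?_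
      have := hre (Sum.inl l)
      simpa using this

theorem differentiableOn_Qsum {k : ℕ} {γ : Fin k ⊕ Fin k → ℝ} (hγ : ∀ i, 1 ≤ γ i) :
    DifferentiableOn ℂ (fun t => Qsum (fun i => (γ i : ℂ)) t) Reg := by
  intro t ht
  refine DifferentiableAt.differentiableWithinAt ?_
  unfold Qsum
  refine DifferentiableAt.fun_sum fun S _ => ?_
  exact (differentiableAt_G S hγ ht).mul_const _

end Pool.Agent.H95fa
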