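import Pool.Agent.H26.Err

/-!
Quotients of Gamma values in a sector, and the boundedness of the main term there.
-/

namespace Pool.Agent.H95fa

open Complex Finset Filter Topology Pool.Agent.H26

/-- cross ratio bound for the Euler products -/
lemma gammaSeq_cross {z z0 a b : ℂ} {S : ℝ} {n : ℕ} (hn : n ≠ 0)
    (h1 : ∀ j : ℕ, z + a + j ≠ 0) (h2 : ∀ j : ℕ, z0 + b + j ≠ 0)
    (h3 : ∀ j : ℕ, z + b + j ≠ 0) (h4 : ∀ j : ℕ, z0 + a + j ≠ 0)
    (hS : ∑ j ∈ range (n + 1), ‖(z - z0) * (a - b)‖ / (‖z + a + j‖ * ‖z0 + b + j‖) ≤ S) :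
    ‖GammaSeq (z + a) n‖ * ‖GammaSeq (z0 + b) n‖ ≤
      Real.exp S * (‖GammaSeq (z + b) n‖ * ‖GammaSeq (z0 + a) n‖) := by
  have hn' : (n : ℂ) ≠ 0 := by exact_mod_cast hn
  set w : ℕ → ℂ := fun j => (z - z0) * (a - b) / ((z + a + j) * (z0 + b + j)) with hw
  have p1 : ∏ j ∈ range (n + 1), (z + a + j) ≠ 0 := prod_ne_zero_iff.2 fun j _ => h1 j
  have p2 : ∏ j ∈ range (n + 1), (z0 + b + j) ≠ 0 := prod_ne_zero_iff.2 fun j _ => h2 j
  have p3 : ∏ j ∈ range (n + 1), (z + b + j) ≠ 0 := prod_ne_zero_iff.2 fun j _ => h3 j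
  have p4 : ∏ j ∈ range (n + 1), (z0 + a + j) ≠ 0 := prod_ne_zero_iff.2 fun j _ => h4 j
  have hprod : (∏ j ∈ range (n + 1), (1 + w j)) *
      ((∏ j ∈ range (n + 1), (z + a + j)) * ∏ j ∈ range (n + 1), (z0 + b + j)) =
      (∏ j ∈ range (n + 1), (z + b + j)) * ∏ j ∈ range (n + 1), (z0 + a + j) := by
    rw [← prod_mul_distrib, ← prod_mul_distrib, ← prod_mul_distrib]
    refine prod_congr rfl fun j _ => ?_
    have e1 := h1 j
    have e2 := h2 j
    simp only [hw]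
    field_simp
    ring
  have hpow : (n : ℂ) ^ (z + a) * (n : ℂ) ^ (z0 + b) = (n : ℂ) ^ (z + b) * (n : ℂ) ^ (z0 + a) := by
    rw [← cpow_add _ _ hn', ← cpow_add _ _ hn']
    congr 1
    ring
  have key : GammaSeq (z + a) n * GammaSeq (z0 + b) n =
      (∏ j ∈ range (n + 1), (1 + w j)) * (GammaSeq (z + b) n * GammaSeq (z0 + a) n) := by
    unfold GammaSeq
    rw [div_mul_div_comm, div_mul_div_comm, ← mul_div_assoc, div_eq_div_iff
      (mul_ne_zero p1 p2) (mul_ne_zero p3 p4)]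
    rw [← hprod]
    calc _ = ((n : ℂ) ^ (z + a) * (n : ℂ) ^ (z0 + b)) * ((n.factorial : ℂ) * (n.factorial : ℂ)) *
          ((∏ j ∈ range (n + 1), (1 + w j)) *
      ((∏ j ∈ range (n + 1), (z + a + j)) * ∏ j ∈ range (n + 1), (z0 + b + j))) := by ring
      _ = _ := by rw [hpow]; ring
  have hexp : ‖∏ j ∈ range (n + 1), (1 + w j)‖ ≤ Real.exp S := by
    rw [norm_prod]
    calc ∏ j ∈ range (n + 1), ‖1 + w j‖ ≤ ∏ j ∈ range (n + 1), Real.exp ‖w j‖ := by
          refine prod_le_prod (fun _ _ => norm_nonneg _) fun j _ => ?_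
          refine (norm_add_le _ _).trans ?_
          rw [norm_one, add_comm]
          exact Real.add_one_le_exp _
      _ = Real.exp (∑ j ∈ range (n + 1), ‖w j‖) := (Real.exp_sum _ _).symm
      _ ≤ Real.exp S := by
          rw [Real.exp_le_exp]
          refine le_trans (le_of_eq ?_) hS
          refine sum_congr rfl fun j _ => ?_
          simp only [hw]
          rw [norm_div, norm_mul (z + a + j)]
  rw [← norm_mul, ← norm_mul, key, norm_mul]
  exact mul_le_mul_of_nonneg_right hexp (norm_nonneg _)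

lemma gamma_cross {z z0 a b : ℂ} {S : ℝ}
    (h1 : ∀ j : ℕ, z + a + j ≠ 0) (h2 : ∀ j : ℕ, z0 + b + j ≠ 0)
    (h3 : ∀ j : ℕ, z + b + j ≠ 0) (h4 : ∀ j : ℕ, z0 + a + j ≠ 0)
    (hS : ∀ n : ℕ, ∑ j ∈ range n, ‖(z - z0) * (a - b)‖ / (‖z + a + j‖ * ‖z0 + b + j‖) ≤ S) :
    ‖Gamma (z + a)‖ * ‖Gamma (z0 + b)‖ ≤
      Real.exp S * (‖Gamma (z + b)‖ * ‖Gamma (z0 + a)‖) := by
  have t1 := (GammaSeq_tendsto_Gamma (z + a)).norm.mul (GammaSeq_tendsto_Gamma (z0 + b)).norm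
  have t2 := ((GammaSeq_tendsto_Gamma (z + b)).norm.mul
    (GammaSeq_tendsto_Gamma (z0 + a)).norm).const_mul (Real.exp S)
  refine le_of_tendsto_of_tendsto t1 t2 ?_
  filter_upwards [eventually_ne_atTop 0] with n hn
  exact gammaSeq_cross hn h1 h2 h3 h4 (hS (n + 1))

lemma norm_ge_of {w : ℂ} {x j : ℝ} (h1 : (x + 1) / 2 ≤ |w.im|) (h2 : j - x / 2 ≤ w.re) :
    (1 + x + j) / 6 ≤ ‖w‖ ∨ x < 0 := by
  by_cases hx : x < 0
  · exact Or.inr hx
  left
  have h3 := abs_im_le_norm w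
  have h4 := (le_abs_self w.re).trans (abs_re_le_norm w)
  linarith

lemma sum_inv_sq_le {x : ℝ} (hx : 0 ≤ x) (n : ℕ) :
    x * ∑ j ∈ range n, 1 / (1 + x + j) ^ 2 ≤ 1 := by
  rcases eq_or_lt_of_le hx with h | h
  · rw [← h, zero_mul]; norm_num
  have key : ∀ n : ℕ, x * ∑ j ∈ range n, 1 / (1 + x + j) ^ 2 ≤ 1 - x / (x + n) := by
    intro n
    induction n with
    | zero => simp [h.ne']
    | succ n ih =>
      rw [sum_range_succ, mul_add]
      have hn : (0 : ℝ) ≤ n := Nat.cast_nonneg n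
      have e : x * (1 / (1 + x + n) ^ 2) ≤ x / (x + n) - x / (x + ((n + 1 : ℕ) : ℝ)) := by
        push_cast
        have h1 : 0 < x + n := by linarith
        have h2 : 0 < x + (n + 1) := by linarith
        have h3 : x / (x + n) - x / (x + (n + 1)) = x * (1 / ((x + n) * (x + (n + 1)))) := by
          field_simp
          ring
        rw [h3]
        apply mul_le_mul_of_nonneg_left _ hx
        apply one_div_le_one_div_of_le (by positivity)
        nlinarith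
      linarith
  refine (key n).trans ?_
  have : 0 ≤ x / (x + n) := by positivity
  linarith

/-- the sector `0 ≤ Re t`, `-Re t ≤ Im t ≤ 0`. -/
def Sec : Set ℂ := {t | 0 ≤ t.re ∧ -t.re ≤ t.im ∧ t.im ≤ 0}

/-- a cross ratio bound, in the form needed -/
lemma gamma_cross' {x : ℝ} (hx : 0 ≤ x) {M : ℝ} {z z0 a b : ℂ}
    (hz : ‖z - z0‖ ≤ x / 2) (hab : ‖a - b‖ ≤ M / 2)
    (g1 : (x + 1) / 2 ≤ |(z + a).im|) (g1' : -(x / 2) ≤ (z + a).re)
    (g2 : (x + 1) / 2 ≤ |(z0 + b).im|) (g2' : -(x / 2) ≤ (z0 + b).re)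
    (g3 : (x + 1) / 2 ≤ |(z + b).im|) (g4 : (x + 1) / 2 ≤ |(z0 + a).im|) :
    ‖Gamma (z + a)‖ * ‖Gamma (z0 + b)‖ ≤
      Real.exp (9 * M) * (‖Gamma (z + b)‖ * ‖Gamma (z0 + a)‖) := by
  have hM : 0 ≤ M := by linarith [norm_nonneg (a - b)]
  have hne : ∀ w : ℂ, (x + 1) / 2 ≤ |w.im| → ∀ j : ℕ, w + j ≠ 0 := by
    intro w hw j h
    have h1 : (w + j).im = w.im := by simp
    rw [h] at h1
    have h2 : w.im = 0 := h1.symm
    rw [h2, abs_zero] at hw
    linarith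
  have hge : ∀ w : ℂ, (x + 1) / 2 ≤ |w.im| → -(x / 2) ≤ w.re → ∀ j : ℕ,
      (1 + x + j) / 6 ≤ ‖w + j‖ := by
    intro w hw hw' j
    have h1 : (w + j).im = w.im := by simp
    have h2 : (w + j).re = w.re + j := by simp
    rcases norm_ge_of (w := w + j) (x := x) (j := j) (by rw [h1]; exact hw)
      (by rw [h2]; linarith) with h | h
    · exact h
    · linarith
  refine gamma_cross (hne _ g1) (hne _ g2) (hne _ g3) (hne _ g4) ?_
  intro n
  calc ∑ j ∈ range n, ‖(z - z0) * (a - b)‖ / (‖z + a + j‖ * ‖z0 + b + j‖)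
      ≤ ∑ j ∈ range n, (9 * M) * (x * (1 / (1 + x + j) ^ 2)) := by
        refine sum_le_sum fun j _ => ?_
        have hj : (0 : ℝ) ≤ j := Nat.cast_nonneg j
        have e1 := hge _ g1 g1' j
        have e2 := hge _ g2 g2' j
        have e3 : 0 < (1 + x + j) / 6 := by positivity
        rw [norm_mul]
        calc ‖z - z0‖ * ‖a - b‖ / (‖z + a + j‖ * ‖z0 + b + j‖)
            ≤ (x / 2 * (M / 2)) / ((1 + x + j) / 6 * ((1 + x + j) / 6)) := by
              apply div_le_div₀ (by positivity)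
              · exact mul_le_mul hz hab (norm_nonneg _) (by positivity)
              · positivity
              · exact mul_le_mul e1 e2 e3.le (norm_nonneg _)
          _ = (9 * M) * (x * (1 / (1 + x + j) ^ 2)) := by
              field_simp
              ring
    _ = (9 * M) * (x * ∑ j ∈ range n, 1 / (1 + x + j) ^ 2) := by
        rw [← mul_sum, ← mul_sum]
    _ ≤ (9 * M) * 1 := by
        apply mul_le_mul_of_nonneg_left (sum_inv_sq_le hx n) (by positivity)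
    _ = 9 * M := mul_one _

lemma gamma_half_re_im (t : ℂ) (g : ℝ) :
    ((1 / 4 - I * t / 2) + (-(I * g / 2))).re = 1 / 4 + t.im / 2 ∧
    ((1 / 4 - I * t / 2) + (-(I * g / 2))).im = -((t.re + g) / 2) ∧
    ((1 / 4 + I * t / 2) + I * g / 2).re = 1 / 4 - t.im / 2 ∧
    ((1 / 4 + I * t / 2) + I * g / 2).im = (t.re + g) / 2 := by
  refine ⟨?_, ?_, ?_, ?_⟩
  · simp; ring
  · simp; ring
  · simp; ring
  · simp; ring

/-- `χ` at two shifts in the sector. -/
lemma norm_chi_ratio {M : ℝ} {t : ℂ} (ht : t ∈ Sec) {al be : ℝ} (ha : 1 ≤ al) (ha' : al ≤ M)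
    (hb : 1 ≤ be) (hb' : be ≤ M) :
    ‖chi (1 / 2 + I * (t + al))‖ ≤ Real.exp (18 * M) * ‖chi (1 / 2 + I * (t + be))‖ := by
  obtain ⟨hx, hy, hy'⟩ := ht
  set x := t.re with hxdef
  set z : ℂ := 1 / 4 - I * t / 2 with hz
  set z' : ℂ := 1 / 4 + I * t / 2 with hz'
  set z0 : ℂ := 1 / 4 - I * (x : ℂ) / 2 with hz0
  set z0' : ℂ := 1 / 4 + I * (x : ℂ) / 2 with hz0'
  have hM : 1 ≤ M := ha.trans ha'
  have hzz : z - z0 = I * ((x : ℂ) - t) / 2 := by rw [hz, hz0]; ring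
  have hzz' : z' - z0' = -(I * ((x : ℂ) - t) / 2) := by rw [hz', hz0']; ring
  have hxt : ‖(x : ℂ) - t‖ ≤ x := by
    have e : (x : ℂ) - t = -(t.im : ℂ) * I := by
      apply Complex.ext
      · simp [hxdef]
      · simp
    rw [e, norm_mul, norm_neg, norm_I, mul_one, Complex.norm_real, Real.norm_eq_abs, abs_le]
    constructor <;> linarith
  have n1 : ‖z - z0‖ ≤ x / 2 := by
    rw [hzz, norm_div, norm_mul, norm_I, one_mul]
    have : ‖(2 : ℂ)‖ = 2 := by simp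
    rw [this]
    linarith
  have n1' : ‖z' - z0'‖ ≤ x / 2 := by
    rw [hzz', norm_neg, norm_div, norm_mul, norm_I, one_mul]
    have : ‖(2 : ℂ)‖ = 2 := by simp
    rw [this]
    linarith
  have hab : ‖(-(I * (al : ℂ) / 2)) - (-(I * (be : ℂ) / 2))‖ ≤ M / 2 := by
    have e : (-(I * (al : ℂ) / 2)) - (-(I * (be : ℂ) / 2)) = I * ((be - al : ℝ) : ℂ) / 2 := by
      push_cast; ring
    rw [e, norm_div, norm_mul, norm_I, one_mul, Complex.norm_real, Real.norm_eq_abs]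
    have : ‖(2 : ℂ)‖ = 2 := by simp
    rw [this]
    have : |be - al| ≤ M := by rw [abs_le]; constructor <;> linarith
    linarith
  have hab' : ‖I * (be : ℂ) / 2 - I * (al : ℂ) / 2‖ ≤ M / 2 := by
    have e : I * (be : ℂ) / 2 - I * (al : ℂ) / 2 = I * ((be - al : ℝ) : ℂ) / 2 := by
      push_cast; ring
    rw [e, norm_div, norm_mul, norm_I, one_mul, Complex.norm_real, Real.norm_eq_abs]
    have : ‖(2 : ℂ)‖ = 2 := by simp
    rw [this]
    have : |be - al| ≤ M := by rw [abs_le]; constructor <;> linarith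
    linarith
  obtain ⟨r1, r2, r3, r4⟩ := gamma_half_re_im t al
  obtain ⟨s1, s2, s3, s4⟩ := gamma_half_re_im t be
  obtain ⟨u1, u2, u3, u4⟩ := gamma_half_re_im (x : ℂ) al
  obtain ⟨v1, v2, v3, v4⟩ := gamma_half_re_im (x : ℂ) be
  rw [← hz] at r1 r2 s1 s2
  rw [← hz'] at r3 r4 s3 s4
  rw [← hz0] at u1 u2 v1 v2
  rw [← hz0'] at u3 u4 v3 v4
  simp only [ofReal_re, ofReal_im] at u1 u2 u3 u4 v1 v2 v3 v4
  rw [← hxdef] at r2 r4 s2 s4
  have c1 := gamma_cross' hx n1 hab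
    (by rw [r2, abs_neg, abs_of_nonneg (by linarith)]; linarith) (by rw [r1]; linarith)
    (by rw [v2, abs_neg, abs_of_nonneg (by linarith)]; linarith) (by rw [v1]; linarith)
    (by rw [s2, abs_neg, abs_of_nonneg (by linarith)]; linarith)
    (by rw [u2, abs_neg, abs_of_nonneg (by linarith)]; linarith)
  have c2 := gamma_cross' hx n1' hab'
    (by rw [s4, abs_of_nonneg (by linarith)]; linarith) (by rw [s3]; linarith)
    (by rw [u4, abs_of_nonneg (by linarith)]; linarith) (by rw [u3]; linarith)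
    (by rw [r4, abs_of_nonneg (by linarith)]; linarith)
    (by rw [v4, abs_of_nonneg (by linarith)]; linarith)
  -- symmetry on the real line
  have sym : ∀ g : ℝ, ‖Gamma (z0 + -(I * (g : ℂ) / 2))‖ = ‖Gamma (z0' + I * (g : ℂ) / 2)‖ := by
    intro g
    have e1 : z0 + -(I * (g : ℂ) / 2) = ((1 / 4 : ℝ) : ℂ) - (((x + g) / 2 : ℝ) : ℂ) * I := by
      rw [hz0]; push_cast; ring
    have e2 : z0' + I * (g : ℂ) / 2 = ((1 / 4 : ℝ) : ℂ) + (((x + g) / 2 : ℝ) : ℂ) * I := by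
      rw [hz0']; push_cast; ring
    rw [e1, e2]
    exact norm_Gamma_symm _ _
  rw [sym al, sym be] at c1
  set A := ‖Gamma (z + -(I * (al : ℂ) / 2))‖ with hA
  set B := ‖Gamma (z + -(I * (be : ℂ) / 2))‖ with hB
  set A' := ‖Gamma (z' + I * (al : ℂ) / 2)‖ with hA'
  set B' := ‖Gamma (z' + I * (be : ℂ) / 2)‖ with hB'
  set A0 := ‖Gamma (z0' + I * (al : ℂ) / 2)‖ with hA0
  set B0 := ‖Gamma (z0' + I * (be : ℂ) / 2)‖ with hB0
  have pA' : 0 < A' := norm_pos_iff.2 (Gamma_ne_zero_of_re_pos (by rw [r3]; linarith))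
  have pB' : 0 < B' := norm_pos_iff.2 (Gamma_ne_zero_of_re_pos (by rw [s3]; linarith))
  have pA0 : 0 < A0 := norm_pos_iff.2 (Gamma_ne_zero_of_re_pos (by rw [u3]; norm_num))
  have pB0 : 0 < B0 := norm_pos_iff.2 (Gamma_ne_zero_of_re_pos (by rw [v3]; norm_num))
  have pA : 0 ≤ A := norm_nonneg _
  have pB : 0 ≤ B := norm_nonneg _
  -- c1 : A * B0 ≤ e * (B * A0), c2 : B' * A0 ≤ e * (A' * B0)
  have hAB : A * B' ≤ Real.exp (18 * M) * (B * A') := by
    have h5 : (A * B0) * (B' * A0) ≤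
        (Real.exp (9 * M) * (B * A0)) * (Real.exp (9 * M) * (A' * B0)) :=
      mul_le_mul c1 c2 (by positivity) (by positivity)
    have h6 : (A * B') * (A0 * B0) ≤ (Real.exp (18 * M) * (B * A')) * (A0 * B0) := by
      have e : Real.exp (18 * M) = Real.exp (9 * M) * Real.exp (9 * M) := by
        rw [← Real.exp_add]; congr 1; ring
      rw [e]
      calc _ = (A * B0) * (B' * A0) := by ring
        _ ≤ _ := h5
        _ = _ := by ring
    exact le_of_mul_le_mul_right h6 (by positivity)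
  have hchi : ∀ g : ℝ, ‖chi (1 / 2 + I * (t + g))‖ = Real.pi ^ (-t.im) *
      ‖Gamma (z + -(I * (g : ℂ) / 2))‖ / ‖Gamma (z' + I * (g : ℂ) / 2)‖ := by
    intro g
    unfold chi
    have e1 : (1 - (1 / 2 + I * (t + g))) / 2 = z + -(I * (g : ℂ) / 2) := by rw [hz]; ring
    have e2 : (1 / 2 + I * (t + g)) / 2 = z' + I * (g : ℂ) / 2 := by rw [hz']; ring
    rw [e1, e2, norm_div, norm_mul, norm_pi_cpow]
    congr 3
    simp
  rw [hchi al, hchi be, ← mul_div_assoc, div_le_div_iff₀ pA' pB']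
  have hpi : 0 ≤ Real.pi ^ (-t.im) := Real.rpow_nonneg Real.pi_pos.le _
  calc Real.pi ^ (-t.im) * A * B' = Real.pi ^ (-t.im) * (A * B') := by ring
    _ ≤ Real.pi ^ (-t.im) * (Real.exp (18 * M) * (B * A')) := by gcongr
    _ = _ := by ring

end Pool.Agent.H95fa
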