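import Pool.Agent.H26.ZetaGrowth

/-!
Growth of the L-functions of periodic sequences.
-/

namespace Pool.Agent.H95fa

open Complex Finset Filter Topology MeasureTheory ZMod

/-- `|Γ(3/2 + iy)| ≤ 3 (1 + |y|) e^{-π|y|/2}`. -/
lemma norm_Gamma_three_half_le (y : ℝ) :
    ‖Gamma (3 / 2 + y * I)‖ ≤ 3 * (1 + |y|) * Real.exp (-(Real.pi * |y| / 2)) := by
  have h1 : Gamma (3 / 2 + y * I) = (1 / 2 + y * I) * Gamma (1 / 2 + y * I) := by
    rw [← Complex.Gamma_add_one]
    · congr 1; ring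
    · intro h
      have := congrArg Complex.re h
      norm_num at this
  -- |Γ(1/2 + iy)|² = π / cosh (π y)
  have h2 : ‖Gamma (1 / 2 + y * I)‖ ^ 2 = Real.pi / Real.cosh (Real.pi * y) := by
    have e := Complex.Gamma_mul_Gamma_one_sub (1 / 2 + y * I)
    have e1 : (1 : ℂ) - (1 / 2 + y * I) = (starRingEnd ℂ) (1 / 2 + y * I) := by
      apply Complex.ext <;> simp <;> norm_num
    rw [e1, Complex.Gamma_conj, Complex.mul_conj] at e
    have e2 : Complex.sin (Real.pi * (1 / 2 + y * I)) = Real.cosh (Real.pi * y) := by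
      have : (Real.pi : ℂ) * (1 / 2 + y * I) = (Real.pi * y : ℝ) * I + Real.pi / 2 := by
        push_cast; ring
      rw [this, Complex.sin_add_pi_div_two, Complex.cos_mul_I, Complex.ofReal_cosh]
    rw [e2, Complex.normSq_eq_norm_sq] at e
    exact_mod_cast e
  have h3 : Real.exp (Real.pi * |y|) / 2 ≤ Real.cosh (Real.pi * y) := by
    rw [Real.cosh_eq]
    rcases abs_cases y with ⟨h, _⟩ | ⟨h, _⟩
    · rw [h]; have := Real.exp_pos (-(Real.pi * y)); linarith
    · rw [h, mul_neg]; have := Real.exp_pos (Real.pi * y); linarith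
  have h4 : ‖Gamma (1 / 2 + y * I)‖ ≤ 3 * Real.exp (-(Real.pi * |y| / 2)) := by
    apply le_of_sq_le_sq _ (by positivity)
    rw [h2, mul_pow, ← Real.exp_nat_mul]
    have e3 : ((2 : ℕ) : ℝ) * -(Real.pi * |y| / 2) = -(Real.pi * |y|) := by push_cast; ring
    rw [e3, div_le_iff₀ (Real.cosh_pos _)]
    calc Real.pi ≤ 3 ^ 2 * (1 / 2) := by linarith [Real.pi_le_four]
      _ = 3 ^ 2 * (Real.exp (-(Real.pi * |y|)) * (Real.exp (Real.pi * |y|) / 2)) := by
          have : Real.exp (-(Real.pi * |y|)) * Real.exp (Real.pi * |y|) = 1 := by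
            rw [← Real.exp_add]; simp
          rw [← mul_div_assoc (Real.exp (-(Real.pi * |y|))), this]
      _ ≤ 3 ^ 2 * (Real.exp (-(Real.pi * |y|)) * Real.cosh (Real.pi * y)) := by gcongr
      _ = _ := by ring
  rw [h1, norm_mul]
  have h5 : ‖(1 / 2 + y * I : ℂ)‖ ≤ 1 + |y| := by
    refine (norm_add_le _ _).trans ?_
    rw [norm_mul, Complex.norm_real, norm_I, mul_one, Real.norm_eq_abs]
    have : ‖(1 / 2 : ℂ)‖ = 1 / 2 := by simp
    rw [this]
    linarith
  calc _ ≤ (1 + |y|) * (3 * Real.exp (-(Real.pi * |y| / 2))) := by gcongr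
    _ = _ := by ring

variable {N : ℕ} [NeZero N]

lemma norm_dft_le {Φ : ZMod N → ℂ} {B : ℝ} (h : ∀ j, ‖Φ j‖ ≤ B) (j : ZMod N) :
    ‖ZMod.dft Φ j‖ ≤ N * B := by
  rw [ZMod.dft_apply]
  refine (norm_sum_le _ _).trans ?_
  calc ∑ i : ZMod N, ‖stdAddChar (-(i * j)) • Φ i‖ ≤ ∑ _i : ZMod N, B := by
        refine sum_le_sum fun i _ => ?_
        rw [norm_smul, AddChar.norm_apply, one_mul]
        exact h i
    _ = N * B := by rw [sum_const, card_univ, ZMod.card, nsmul_eq_mul]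

/-- bound in the region of absolute convergence -/
lemma norm_LFunction_three_half {Ψ : ZMod N → ℂ} {B : ℝ} (h : ∀ j, ‖Ψ j‖ ≤ B) {s : ℂ}
    (hs : s.re = 3 / 2) :
    ‖LFunction Ψ s‖ ≤ B * ∑' n : ℕ, 1 / (n : ℝ) ^ (3 / 2 : ℝ) := by
  have hB : 0 ≤ B := (norm_nonneg _).trans (h 0)
  rw [LFunction_eq_LSeries Ψ (by rw [hs]; norm_num), LSeries, ← tsum_mul_left]
  have hsum : Summable fun n : ℕ => B * (1 / (n : ℝ) ^ (3 / 2 : ℝ)) :=
    (Real.summable_one_div_nat_rpow.2 (by norm_num)).mul_left B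
  refine tsum_of_norm_bounded hsum.hasSum fun n => ?_
  rcases eq_or_ne n 0 with rfl | hn
  · simp
  · rw [LSeries.term_of_ne_zero hn, norm_div, Complex.norm_natCast_cpow_of_pos
      (Nat.pos_of_ne_zero hn), hs, div_eq_mul_one_div]
    gcongr
    exact h _

/-- **[D1]** -/
theorem exists_norm_LFunction_neg_half_le : ∃ C : ℝ, 0 < C ∧ ∀ (N : ℕ) [NeZero N]
    (Φ : ZMod N → ℂ), (∀ j, ‖Φ j‖ ≤ 1) → ∀ y : ℝ,
    ‖LFunction Φ (-(1 / 2) + y * I)‖ ≤ C * (N : ℝ) ^ 2 * (1 + |y|) := by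
  set Zt : ℝ := ∑' n : ℕ, 1 / (n : ℝ) ^ (3 / 2 : ℝ) with hZt
  have hZ0 : 0 ≤ Zt := tsum_nonneg fun n => by positivity
  refine ⟨6 * (Zt + 1), by positivity, ?_⟩
  intro N _ Φ hΦ y
  have hN1 : (1 : ℝ) ≤ N := by exact_mod_cast NeZero.one_le
  set s : ℂ := 3 / 2 + ((-y : ℝ) : ℂ) * I with hs
  have hre : s.re = 3 / 2 := by simp [hs]
  have him : s.im = -y := by simp [hs]
  have e0 : -(1 / 2) + y * I = 1 - s := by rw [hs]; push_cast; ring
  have hsn : ∀ n : ℕ, s ≠ -n := by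
    intro n h
    have := congrArg Complex.re h
    rw [hre] at this
    simp at this
    have h2 : (0 : ℝ) ≤ n := Nat.cast_nonneg n
    linarith
  have hs1 : s ≠ 1 := by
    intro h
    have := congrArg Complex.re h
    rw [hre] at this
    norm_num at this
  rw [e0, LFunction_one_sub Φ hsn (Or.inr hs1), norm_mul, norm_mul, norm_mul]
  have n1 : ‖(N : ℂ) ^ (s - 1)‖ ≤ N := by
    rw [Complex.norm_natCast_cpow_of_pos (NeZero.pos N)]
    have : (s - 1).re = 1 / 2 := by rw [sub_re, hre]; norm_num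
    rw [this]
    calc (N : ℝ) ^ (1 / 2 : ℝ) ≤ (N : ℝ) ^ (1 : ℝ) :=
          Real.rpow_le_rpow_of_exponent_le hN1 (by norm_num)
      _ = N := Real.rpow_one _
  have n2 : ‖(2 * (Real.pi : ℂ)) ^ (-s)‖ ≤ 1 := by
    have e : (2 * (Real.pi : ℂ)) = ((2 * Real.pi : ℝ) : ℂ) := by push_cast; ring
    rw [e, Complex.norm_cpow_eq_rpow_re_of_pos (by positivity)]
    refine Real.rpow_le_one_of_one_le_of_nonpos (by linarith [Real.pi_gt_three]) ?_
    rw [neg_re, hre]; norm_num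
  have n3 := norm_Gamma_three_half_le (-y)
  rw [← hs, abs_neg] at n3
  have n4 : ‖cexp (Real.pi * I * s / 2)‖ ≤ Real.exp (Real.pi * |y| / 2) := by
    rw [Complex.norm_exp, Real.exp_le_exp]
    have : (Real.pi * I * s / 2).re = -(Real.pi * s.im) / 2 := by simp
    rw [this, him]
    have := le_abs_self y
    have := Real.pi_pos
    nlinarith
  have n5 : ‖cexp (-Real.pi * I * s / 2)‖ ≤ Real.exp (Real.pi * |y| / 2) := by
    rw [Complex.norm_exp, Real.exp_le_exp]
    have : (-Real.pi * I * s / 2).re = (Real.pi * s.im / 2) := by simp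
    rw [this, him]
    have := neg_abs_le y
    have := Real.pi_pos
    nlinarith
  have n6 : ‖LFunction (ZMod.dft Φ) s‖ ≤ N * Zt := by
    have := norm_LFunction_three_half (Ψ := ZMod.dft Φ) (B := N * 1)
      (fun j => norm_dft_le hΦ j) hre
    rwa [mul_one] at this
  have n7 : ‖LFunction (ZMod.dft fun x => Φ (-x)) s‖ ≤ N * Zt := by
    have := norm_LFunction_three_half (Ψ := ZMod.dft fun x => Φ (-x)) (B := N * 1)
      (fun j => norm_dft_le (fun j => hΦ _) j) hre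
    rwa [mul_one] at this
  have n8 : ‖cexp (Real.pi * I * s / 2) * LFunction (ZMod.dft Φ) s +
      cexp (-Real.pi * I * s / 2) * LFunction (ZMod.dft fun x => Φ (-x)) s‖ ≤
      2 * (Real.exp (Real.pi * |y| / 2) * (N * Zt)) := by
    refine (norm_add_le _ _).trans ?_
    rw [norm_mul, norm_mul, two_mul]
    gcongr
  calc _ ≤ N * 1 * (3 * (1 + |y|) * Real.exp (-(Real.pi * |y| / 2))) *
        (2 * (Real.exp (Real.pi * |y| / 2) * (N * Zt))) := by
        gcongr
    _ = 6 * Zt * (N : ℝ) ^ 2 * (1 + |y|) *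
        (Real.exp (-(Real.pi * |y| / 2)) * Real.exp (Real.pi * |y| / 2)) := by ring
    _ = 6 * Zt * (N : ℝ) ^ 2 * (1 + |y|) := by rw [← Real.exp_add]; simp
    _ ≤ _ := by
        have : 0 ≤ |y| := abs_nonneg y
        gcongr
        linarith

end Pool.Agent.H95fa
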