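import Pool.Agent.H95fa.PerL

/-!
Growth of the L-functions of periodic sequences in a vertical strip.
-/

namespace Pool.Agent.H95fa

open Complex Filter Topology MeasureTheory ZMod Asymptotics Pool.Agent.H26

section bounded
/-! ### Mellin type integrals of bounded step functions -/

/-- The integral `∫_1^∞ S(⌊x⌋) x^{-s-1} dx`. -/
noncomputable def stepJ (S : ℕ → ℂ) (s : ℂ) : ℂ :=
  ∫ x in Set.Ioi (1 : ℝ), S ⌊x⌋₊ * (x : ℂ) ^ (-(s + 1))

variable {S : ℕ → ℂ} {B : ℝ}

lemma norm_step_mul_le (hS : ∀ n, ‖S n‖ ≤ B) {s : ℂ} {x : ℝ} (hx : x ∈ Set.Ioi (1 : ℝ)) :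
    ‖S ⌊x⌋₊ * (x : ℂ) ^ (-(s + 1))‖ ≤ B * x ^ (-(s.re + 1)) := by
  have hx0 : (0 : ℝ) < x := lt_trans one_pos hx
  rw [norm_mul, Complex.norm_cpow_eq_rpow_re_of_pos hx0]
  have e : (-(s + 1)).re = -(s.re + 1) := by simp
  rw [e]
  gcongr
  exact hS _

lemma norm_stepJ_le (hS : ∀ n, ‖S n‖ ≤ B) {s : ℂ} (hs : 0 < s.re) : ‖stepJ S s‖ ≤ B / s.re := by
  unfold stepJ
  have hint : IntegrableOn (fun x : ℝ => B * x ^ (-(s.re + 1))) (Set.Ioi 1) :=
    (integrableOn_Ioi_rpow_of_lt (by linarith) one_pos).const_mul B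
  refine (norm_integral_le_of_norm_le hint ?_).trans ?_
  · exact (ae_restrict_iff' measurableSet_Ioi).2
      (Eventually.of_forall fun x hx => norm_step_mul_le hS hx)
  · rw [integral_const_mul, integral_Ioi_rpow_of_lt (by linarith) one_pos]
    simp
    apply le_of_eq
    ring

lemma stepJ_eq_mellin (S : ℕ → ℂ) (s : ℂ) :
    stepJ S s = mellin ((Set.Ioi (1 : ℝ)).indicator (fun x : ℝ => S ⌊x⌋₊)) (-s) := by
  unfold stepJ mellin
  rw [← integral_indicator measurableSet_Ioi, ← integral_indicator measurableSet_Ioi]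
  congr 1
  ext x
  by_cases hx : x ∈ Set.Ioi (1 : ℝ)
  · have hx0 : x ∈ Set.Ioi (0 : ℝ) := lt_trans one_pos (Set.mem_Ioi.1 hx)
    rw [Set.indicator_of_mem hx, Set.indicator_of_mem hx0, Set.indicator_of_mem hx, smul_eq_mul,
      mul_comm]
    congr 2
    ring
  · rw [Set.indicator_of_notMem hx]
    by_cases hx0 : x ∈ Set.Ioi (0 : ℝ)
    · rw [Set.indicator_of_mem hx0, Set.indicator_of_notMem hx, smul_zero]
    · rw [Set.indicator_of_notMem hx0]

lemma measurable_step (S : ℕ → ℂ) : Measurable fun x : ℝ => S ⌊x⌋₊ :=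
  (measurable_from_nat (f := S)).comp Nat.measurable_floor

lemma differentiableAt_stepJ (hS : ∀ n, ‖S n‖ ≤ B) {s : ℂ} (hs : 0 < s.re) :
    DifferentiableAt ℂ (stepJ S) s := by
  have : stepJ S = fun s => mellin ((Set.Ioi (1 : ℝ)).indicator (fun x : ℝ => S ⌊x⌋₊)) (-s) :=
    funext (stepJ_eq_mellin S)
  rw [this]
  have hb : ∀ x : ℝ, ‖(Set.Ioi (1 : ℝ)).indicator (fun x : ℝ => S ⌊x⌋₊) x‖ ≤ B := by
    intro x
    have hB : 0 ≤ B := (norm_nonneg _).trans (hS 0)
    by_cases hx : x ∈ Set.Ioi (1 : ℝ)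
    · rw [Set.indicator_of_mem hx]; exact hS _
    · rw [Set.indicator_of_notMem hx]; simpa using hB
  have h1 : DifferentiableAt ℂ
      (mellin ((Set.Ioi (1 : ℝ)).indicator (fun x : ℝ => S ⌊x⌋₊))) (-s) := by
    refine mellin_differentiableAt_of_isBigO_rpow (a := 0) (b := (-s).re - 1) ?_ ?_ ?_ ?_ ?_
    · refine (LocallyIntegrable.locallyIntegrableOn ?_ _)
      have hm : Measurable ((Set.Ioi (1 : ℝ)).indicator (fun x : ℝ => S ⌊x⌋₊)) :=
        (measurable_step S).indicator measurableSet_Ioi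
      refine (locallyIntegrable_const B).mono hm.aestronglyMeasurable
        (Eventually.of_forall fun x => ?_)
      exact (hb x).trans (le_abs_self B)
    · refine IsBigO.of_bound B (Eventually.of_forall fun x => ?_)
      simpa using hb x
    · simpa using hs
    · refine IsBigO.of_bound 1 ?_
      filter_upwards [Ioo_mem_nhdsGT (show (0 : ℝ) < 1 from one_pos)] with x hx
      rw [Set.indicator_of_notMem (by simpa using hx.2.le)]
      simp
    · linarith
  exact h1.comp s differentiable_neg.differentiableAt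

end bounded

variable {N : ℕ} [NeZero N]

/-- The mean value. -/
noncomputable def mean (Φ : ZMod N → ℂ) : ℂ := (∑ j, Φ j) / N

/-- Partial sums of the centred sequence. -/
noncomputable def pS (Φ : ZMod N → ℂ) (n : ℕ) : ℂ :=
  ∑ k ∈ Finset.Icc 1 n, (Φ k - mean Φ)

lemma norm_mean_le {Φ : ZMod N → ℂ} {B : ℝ} (h : ∀ j, ‖Φ j‖ ≤ B) : ‖mean Φ‖ ≤ B := by
  have hN : (0 : ℝ) < N := by exact_mod_cast NeZero.pos N
  unfold mean
  rw [norm_div, Complex.norm_natCast, div_le_iff₀ hN]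
  refine (norm_sum_le _ _).trans ?_
  calc ∑ i : ZMod N, ‖Φ i‖ ≤ ∑ _i : ZMod N, B := Finset.sum_le_sum fun i _ => h i
    _ = B * N := by rw [Finset.sum_const, Finset.card_univ, ZMod.card, nsmul_eq_mul, mul_comm]

lemma sum_range_zmod (f : ZMod N → ℂ) : ∑ k ∈ Finset.range N, f (k : ZMod N) = ∑ j, f j := by
  refine Finset.sum_nbij' (fun k => (k : ZMod N)) (fun j => j.val) (fun _ _ => Finset.mem_univ _)
    (fun j _ => Finset.mem_range.2 (ZMod.val_lt j)) ?_ ?_ (fun _ _ => rfl)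
  · intro k hk
    exact ZMod.val_cast_of_lt (Finset.mem_range.1 hk)
  · intro j _
    exact ZMod.natCast_zmod_val j

lemma sum_Ico_zmod (f : ZMod N → ℂ) (n : ℕ) :
    ∑ k ∈ Finset.Ico n (n + N), f (k : ZMod N) = ∑ j, f j := by
  induction n with
  | zero =>
    rw [zero_add, ← sum_range_zmod f, Finset.range_eq_Ico]
  | succ n ih =>
    have hN : 0 < N := NeZero.pos N
    have h1 : ∑ k ∈ Finset.Ico n (n + N + 1), f (k : ZMod N) =
        ∑ k ∈ Finset.Ico n (n + N), f (k : ZMod N) + f ((n + N : ℕ) : ZMod N) :=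
      Finset.sum_Ico_succ_top (by omega) _
    have h2 : ∑ k ∈ Finset.Ico n (n + N + 1), f (k : ZMod N) =
        f (n : ZMod N) + ∑ k ∈ Finset.Ico (n + 1) (n + N + 1), f (k : ZMod N) :=
      Finset.sum_eq_sum_Ico_succ_bot (by omega) _
    have h3 : ((n + N : ℕ) : ZMod N) = (n : ZMod N) := by simp
    rw [h3] at h1
    rw [show n + 1 + N = n + N + 1 by ring, ← ih]
    have := h1.symm.trans h2
    linear_combination -this

lemma pS_periodic (Φ : ZMod N → ℂ) : Function.Periodic (pS Φ) N := by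
  intro n
  unfold pS
  have hN : (N : ℂ) ≠ 0 := by exact_mod_cast NeZero.ne N
  have e1 : ∑ k ∈ Finset.Icc 1 (n + N), (Φ k - mean Φ) =
      ∑ k ∈ Finset.Icc 1 n, (Φ k - mean Φ) + ∑ k ∈ Finset.Ico (n + 1) (n + 1 + N),
        (Φ k - mean Φ) := by
    have h1 : Finset.Icc 1 (n + N) = Finset.Ico 1 (n + 1 + N) := by
      ext k; simp only [Finset.mem_Icc, Finset.mem_Ico]; omega
    have h2 : Finset.Icc 1 n = Finset.Ico 1 (n + 1) := by
      ext k; simp only [Finset.mem_Icc, Finset.mem_Ico]; omega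
    rw [h1, h2, Finset.sum_Ico_consecutive _ (by omega) (by omega)]
  have e2 : ∑ k ∈ Finset.Ico (n + 1) (n + 1 + N), (Φ k - mean Φ) = 0 := by
    rw [Finset.sum_sub_distrib, sum_Ico_zmod Φ, Finset.sum_const, Nat.card_Ico, mean]
    simp only [nsmul_eq_mul, add_tsub_cancel_left]
    field_simp
    ring
  rw [e1, e2, add_zero]

lemma norm_pS_le {Φ : ZMod N → ℂ} {B : ℝ} (h : ∀ j, ‖Φ j‖ ≤ B) (n : ℕ) :
    ‖pS Φ n‖ ≤ 2 * B * N := by
  have hB : 0 ≤ B := (norm_nonneg _).trans (h 0)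
  rw [← (pS_periodic Φ).map_mod_nat n]
  have hlt : n % N < N := Nat.mod_lt _ (NeZero.pos N)
  unfold pS
  refine (norm_sum_le _ _).trans ?_
  calc ∑ k ∈ Finset.Icc 1 (n % N), ‖Φ k - mean Φ‖
      ≤ ∑ _k ∈ Finset.Icc 1 (n % N), 2 * B := by
        refine Finset.sum_le_sum fun k _ => (norm_sub_le _ _).trans ?_
        have := h (k : ZMod N)
        have := norm_mean_le h
        linarith
    _ = (n % N : ℕ) * (2 * B) := by
        rw [Finset.sum_const, Nat.card_Icc, nsmul_eq_mul]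
        simp
    _ ≤ N * (2 * B) := by
        gcongr
    _ = _ := by ring

/-- The entire function `(s - 1) L(Φ, s)`. -/
noncomputable def Lst (Φ : ZMod N → ℂ) : ℂ → ℂ :=
  Function.update (fun s => (s - 1) * LFunction Φ s) 1 (∑ j, Φ j / N)

lemma Lst_of_ne (Φ : ZMod N → ℂ) {s : ℂ} (hs : s ≠ 1) : Lst Φ s = (s - 1) * LFunction Φ s :=
  Function.update_of_ne hs _ _

lemma differentiable_Lst (Φ : ZMod N → ℂ) : Differentiable ℂ (Lst Φ) := by
  intro s
  by_cases hs : s = 1
  · subst hs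
    refine (analyticAt_of_differentiable_on_punctured_nhds_of_continuousAt ?_ ?_).differentiableAt
    · filter_upwards [self_mem_nhdsWithin] with z hz
      have h1 : DifferentiableAt ℂ (fun s => (s - 1) * LFunction Φ s) z :=
        (differentiableAt_id.sub_const 1).mul (differentiableAt_LFunction Φ z (Or.inl hz))
      refine h1.congr_of_eventuallyEq ?_
      filter_upwards [isOpen_ne.mem_nhds hz] with w hw
      exact Lst_of_ne Φ hw
    · unfold Lst
      rw [continuousAt_update_same]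
      exact LFunction_residue_one Φ
  · have h1 : DifferentiableAt ℂ (fun s => (s - 1) * LFunction Φ s) s :=
      (differentiableAt_id.sub_const 1).mul (differentiableAt_LFunction Φ s (Or.inl hs))
    refine h1.congr_of_eventuallyEq ?_
    filter_upwards [isOpen_ne.mem_nhds hs] with w hw
    exact Lst_of_ne Φ hw

lemma LFunction_eq_stepJ {Φ : ZMod N → ℂ} {s : ℂ} (hs : 1 < s.re) :
    LFunction Φ s = mean Φ * riemannZeta s + s * stepJ (pS Φ) s := by
  have hsum1 : LSeriesSummable (fun n : ℕ => Φ (n : ZMod N)) s := LSeriesSummable_of_one_lt_re Φ hs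
  have hsum2 : LSeriesSummable (1 : ℕ → ℂ) s := LSeriesSummable_one_iff.2 hs
  have hsum3 : LSeriesSummable (mean Φ • (1 : ℕ → ℂ)) s := hsum2.smul _
  have hsum : LSeriesSummable ((fun n : ℕ => Φ (n : ZMod N)) - mean Φ • (1 : ℕ → ℂ)) s :=
    hsum1.sub hsum3
  obtain ⟨B, hB⟩ : ∃ B : ℝ, ∀ j, ‖Φ j‖ ≤ B := by
    refine ⟨∑ j, ‖Φ j‖, fun j => ?_⟩
    exact Finset.single_le_sum (f := fun j => ‖Φ j‖) (fun _ _ => norm_nonneg _)
      (Finset.mem_univ j)
  have hO : (fun n ↦ ∑ k ∈ Finset.Icc 1 n,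
      ((fun n : ℕ => Φ (n : ZMod N)) - mean Φ • (1 : ℕ → ℂ)) k) =O[atTop]
      fun n ↦ (n : ℝ) ^ (0 : ℝ) := by
    refine IsBigO.of_bound (2 * B * N) (Eventually.of_forall fun n => ?_)
    rw [Real.rpow_zero, norm_one, mul_one]
    refine le_trans (le_of_eq ?_) (norm_pS_le hB n)
    unfold pS
    congr 1
    refine Finset.sum_congr rfl fun k _ => ?_
    simp
  have h := LSeries_eq_mul_integral ((fun n : ℕ => Φ (n : ZMod N)) - mean Φ • (1 : ℕ → ℂ))
    (r := 0) le_rfl (by linarith) hsum hO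
  rw [LSeries_sub hsum1 hsum3, LSeries_smul, LSeries_one_eq_riemannZeta hs,
    ← LFunction_eq_LSeries Φ hs] at h
  have e : s * ∫ t in Set.Ioi (1 : ℝ), (∑ k ∈ Finset.Icc 1 ⌊t⌋₊,
      ((fun n : ℕ => Φ (n : ZMod N)) - mean Φ • (1 : ℕ → ℂ)) k) * (t : ℂ) ^ (-(s + 1)) =
      s * stepJ (pS Φ) s := by
    unfold stepJ pS
    congr 1
    refine setIntegral_congr_fun measurableSet_Ioi fun t _ => ?_
    simp
  rw [e] at h
  linear_combination h

lemma Lst_eq {Φ : ZMod N → ℂ} {s : ℂ} (hs : 0 < s.re) :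
    Lst Φ s = mean Φ * (1 + (s - 1) * riemannZeta₀ s) + (s - 1) * (s * stepJ (pS Φ) s) := by
  obtain ⟨B, hB⟩ : ∃ B : ℝ, ∀ j, ‖Φ j‖ ≤ B := by
    refine ⟨∑ j, ‖Φ j‖, fun j => ?_⟩
    exact Finset.single_le_sum (f := fun j => ‖Φ j‖) (fun _ _ => norm_nonneg _)
      (Finset.mem_univ j)
  have hU : IsOpen {s : ℂ | 0 < s.re} := isOpen_lt continuous_const Complex.continuous_re
  have hc : IsPreconnected {s : ℂ | 0 < s.re} := (convex_halfSpace_re_gt 0).isPreconnected
  have h1 : AnalyticOnNhd ℂ (Lst Φ) {s : ℂ | 0 < s.re} :=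
    ((differentiable_Lst Φ).differentiableOn).analyticOnNhd hU
  have h2 : AnalyticOnNhd ℂ (fun s => mean Φ * (1 + (s - 1) * riemannZeta₀ s) +
      (s - 1) * (s * stepJ (pS Φ) s)) {s : ℂ | 0 < s.re} := by
    refine DifferentiableOn.analyticOnNhd ?_ hU
    intro s hs
    refine DifferentiableAt.differentiableWithinAt ?_
    have hz : DifferentiableAt ℂ riemannZeta₀ s := differentiable_riemannZeta₀ s
    have hJ : DifferentiableAt ℂ (stepJ (pS Φ)) s := differentiableAt_stepJ (norm_pS_le hB) hs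
    fun_prop
  refine h1.eqOn_of_preconnected_of_eventuallyEq h2 hc (z₀ := 2) (by simp) ?_ hs
  have : {s : ℂ | 1 < s.re} ∈ nhds (2 : ℂ) :=
    (isOpen_lt continuous_const Complex.continuous_re).mem_nhds (by simp)
  filter_upwards [this] with s hs
  have hs1 : s ≠ 1 := by rintro rfl; simp at hs
  have h3 : s - 1 ≠ 0 := sub_ne_zero.2 hs1
  rw [Lst_of_ne Φ hs1, LFunction_eq_stepJ hs, riemannZeta_eq_inv_sub_add hs1]
  field_simp

/-- polynomial bound on the right -/
lemma norm_Lst_right {Φ : ZMod N → ℂ} {B : ℝ} (h : ∀ j, ‖Φ j‖ ≤ B) {s : ℂ}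
    (h0 : 1 / 2 ≤ s.re) (h1 : s.re ≤ 2) :
    ‖Lst Φ s‖ ≤ 100 * B * N * (1 + |s.im|) ^ 2 := by
  have hB : 0 ≤ B := (norm_nonneg _).trans (h 0)
  have hN1 : (1 : ℝ) ≤ N := by exact_mod_cast NeZero.one_le
  have hs0 : 0 < s.re := by linarith
  set y := |s.im| with hy
  have hy0 : 0 ≤ y := abs_nonneg _
  have n1 : ‖s‖ ≤ 2 * (1 + y) := by
    refine (Complex.norm_le_abs_re_add_abs_im s).trans ?_
    rw [abs_of_pos hs0]; linarith
  have n2 : ‖s - 1‖ ≤ 1 + y := by
    refine (Complex.norm_le_abs_re_add_abs_im _).trans ?_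
    have e1 : (s - 1).im = s.im := by simp
    have e2 : |(s - 1).re| ≤ 1 := by
      rw [sub_re, one_re, abs_le]; constructor <;> linarith
    rw [e1]; linarith
  have n3 : ‖riemannZeta₀ s‖ ≤ 5 * (1 + y) := by
    refine (norm_riemannZeta₀_le hs0).trans ?_
    have : ‖s‖ / s.re ≤ 2 * ‖s‖ := by
      rw [div_le_iff₀ hs0]
      nlinarith [norm_nonneg s]
    linarith
  have n4 : ‖stepJ (pS Φ) s‖ ≤ 4 * B * N := by
    refine (norm_stepJ_le (norm_pS_le h) hs0).trans ?_
    rw [div_le_iff₀ hs0]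
    have : 0 ≤ B * N := by positivity
    nlinarith
  have n5 := norm_mean_le h
  rw [Lst_eq hs0]
  calc _ ≤ ‖mean Φ‖ * (1 + ‖s - 1‖ * ‖riemannZeta₀ s‖) + ‖s - 1‖ * (‖s‖ * ‖stepJ (pS Φ) s‖) := by
        refine (norm_add_le _ _).trans ?_
        rw [norm_mul, norm_mul, norm_mul]
        gcongr
        refine (norm_add_le _ _).trans ?_
        rw [norm_one, norm_mul]
    _ ≤ B * (1 + (1 + y) * (5 * (1 + y))) + (1 + y) * (2 * (1 + y) * (4 * B * N)) := by
        gcongr
    _ ≤ _ := by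
        have e1 : B * (1 + (1 + y) * (5 * (1 + y))) ≤ B * N * (6 * (1 + y) ^ 2) := by
          have : 1 + (1 + y) * (5 * (1 + y)) ≤ 6 * (1 + y) ^ 2 := by nlinarith
          calc _ ≤ B * (6 * (1 + y) ^ 2) := by gcongr
            _ ≤ B * N * (6 * (1 + y) ^ 2) := by
                gcongr
                nlinarith
        have e2 : 0 ≤ B * N * (1 + y) ^ 2 := by positivity
        nlinarith

lemma norm_Gamma_le_re {s : ℂ} (hs : 0 < s.re) : ‖Gamma s‖ ≤ Real.Gamma s.re := by
  rw [Complex.Gamma_eq_integral hs, Complex.GammaIntegral, Real.Gamma_eq_integral hs]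
  refine norm_integral_le_of_norm_le (Real.GammaIntegral_convergent hs) ?_
  refine (ae_restrict_iff' measurableSet_Ioi).2 (Eventually.of_forall fun x hx => ?_)
  rw [norm_mul, Complex.norm_cpow_eq_rpow_re_of_pos hx, Complex.norm_real, Real.norm_eq_abs,
    abs_of_pos (Real.exp_pos _)]
  simp

lemma exists_Gamma_bound : ∃ C : ℝ, 0 < C ∧ ∀ s : ℂ, 1 / 2 ≤ s.re → s.re ≤ 3 / 2 →
    ‖Gamma s‖ ≤ C := by
  have hc : ContinuousOn Real.Gamma (Set.Icc (1 / 2 : ℝ) (3 / 2)) := by
    intro x hx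
    refine (Real.differentiableAt_Gamma fun m => ?_).continuousAt.continuousWithinAt
    have : (0 : ℝ) ≤ m := Nat.cast_nonneg m
    intro h
    linarith [hx.1]
  obtain ⟨C, hC⟩ := isCompact_Icc.exists_bound_of_continuousOn hc
  refine ⟨max C 1, by positivity, fun s h0 h1 => ?_⟩
  refine (norm_Gamma_le_re (by linarith)).trans ?_
  exact (le_abs_self _).trans ((hC s.re ⟨h0, h1⟩).trans (le_max_left _ _))

/-- **[D2]** growth in the strip `-1/2 ≤ Re s ≤ 2`. -/
theorem exists_norm_Lst_le (Φ : ZMod N → ℂ) : ∃ C : ℝ, 0 < C ∧ ∀ s : ℂ, -(1 / 2) ≤ s.re →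
    s.re ≤ 2 → ‖Lst Φ s‖ ≤ C * Real.exp (4 * |s.im|) := by
  obtain ⟨B, hB⟩ : ∃ B : ℝ, ∀ j, ‖Φ j‖ ≤ B := by
    refine ⟨∑ j, ‖Φ j‖, fun j => ?_⟩
    exact Finset.single_le_sum (f := fun j => ‖Φ j‖) (fun _ _ => norm_nonneg _)
      (Finset.mem_univ j)
  have hB0 : 0 ≤ B := (norm_nonneg _).trans (hB 0)
  have hN1 : (1 : ℝ) ≤ N := by exact_mod_cast NeZero.one_le
  obtain ⟨CG, hCG0, hCG⟩ := exists_Gamma_bound
  -- near the real axis
  set K : Set ℂ := Set.Icc (-(1 / 2) : ℝ) 2 ×ℂ Set.Icc (-1 : ℝ) 1 with hK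
  have hKc : IsCompact K := isCompact_Icc.reProdIm isCompact_Icc
  obtain ⟨C1, hC1⟩ := hKc.exists_bound_of_continuousOn (f := Lst Φ)
    (differentiable_Lst Φ).continuous.continuousOn
  set C2 : ℝ := 100 * B * N * 4 with hC2
  set C3 : ℝ := N * CG * (2 * (100 * (N * B) * N)) * 100 with hC3
  refine ⟨|C1| + C2 + C3 + 1, by positivity, ?_⟩
  intro s h0 h2
  set y := |s.im| with hy
  have hy0 : 0 ≤ y := abs_nonneg _
  have hexp1 : 1 ≤ Real.exp (4 * y) := Real.one_le_exp (by positivity)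
  have hC2' : 0 ≤ C2 := by positivity
  have hC3' : 0 ≤ C3 := by positivity
  have hlin : 1 + y ≤ 2 * Real.exp (y / 2) := by
    have := Real.add_one_le_exp (y / 2)
    linarith
  rcases le_total y 1 with hy1 | hy1
  · have hs : s ∈ K := Complex.mem_reProdIm.2 ⟨⟨h0, h2⟩, abs_le.1 hy1⟩
    calc _ ≤ C1 := hC1 s hs
      _ ≤ |C1| := le_abs_self _
      _ ≤ (|C1| + C2 + C3 + 1) * 1 := by linarith [abs_nonneg C1]
      _ ≤ _ := by gcongr
  rcases le_total (1 / 2) s.re with hr | hr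
  · refine (norm_Lst_right hB hr h2).trans ?_
    calc 100 * B * N * (1 + y) ^ 2 ≤ 100 * B * N * (2 * Real.exp (y / 2)) ^ 2 := by gcongr
      _ = C2 * Real.exp y := by
          rw [mul_pow, ← Real.exp_nat_mul, hC2]
          have : ((2 : ℕ) : ℝ) * (y / 2) = y := by push_cast; ring
          rw [this]; ring
      _ ≤ C2 * Real.exp (4 * y) := by gcongr; linarith
      _ ≤ _ := by
          gcongr
          linarith [abs_nonneg C1]
  · -- the functional equation
    set s' : ℂ := 1 - s with hs'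
    have hre : s'.re = 1 - s.re := by simp [hs']
    have him : s'.im = -s.im := by simp [hs']
    have hsn : ∀ n : ℕ, s' ≠ -n := by
      intro n h
      have := congrArg Complex.re h
      rw [hre] at this
      simp at this
      have h2 : (0 : ℝ) ≤ n := Nat.cast_nonneg n
      linarith
    have him' : |s'.im| = y := by rw [him, abs_neg]
    have hs1 : s' ≠ 1 := by
      intro h
      rw [h] at him'
      simp at him'
      linarith
    have hsne : s ≠ 1 := by
      intro h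
      rw [h] at hy
      simp at hy
      linarith
    have e0 : s = 1 - s' := by rw [hs']; ring
    have hd1 : 1 ≤ ‖s' - 1‖ := by
      have h1 := Complex.abs_im_le_norm (s' - 1)
      have h2 : (s' - 1).im = s'.im := by simp
      rw [h2, him'] at h1
      linarith
    have hLF : ∀ Ψ : ZMod N → ℂ, (∀ j, ‖Ψ j‖ ≤ N * B) →
        ‖LFunction Ψ s'‖ ≤ 100 * (N * B) * N * (1 + y) ^ 2 := by
      intro Ψ hΨ
      have h1 := norm_Lst_right hΨ (s := s') (by rw [hre]; linarith) (by rw [hre]; linarith)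
      rw [him', Lst_of_ne Ψ hs1, norm_mul] at h1
      refine le_trans ?_ h1
      exact le_mul_of_one_le_left (norm_nonneg _) hd1
    have n1 : ‖(N : ℂ) ^ (s' - 1)‖ ≤ N := by
      rw [Complex.norm_natCast_cpow_of_pos (NeZero.pos N)]
      calc (N : ℝ) ^ (s' - 1).re ≤ (N : ℝ) ^ (1 : ℝ) := by
            refine Real.rpow_le_rpow_of_exponent_le hN1 ?_
            rw [sub_re, hre, one_re]; linarith
        _ = N := Real.rpow_one _
    have n2 : ‖(2 * (Real.pi : ℂ)) ^ (-s')‖ ≤ 1 := by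
      have e : (2 * (Real.pi : ℂ)) = ((2 * Real.pi : ℝ) : ℂ) := by push_cast; ring
      rw [e, Complex.norm_cpow_eq_rpow_re_of_pos (by positivity)]
      refine Real.rpow_le_one_of_one_le_of_nonpos (by linarith [Real.pi_gt_three]) ?_
      rw [neg_re, hre]; linarith
    have n3 : ‖Gamma s'‖ ≤ CG := hCG s' (by rw [hre]; linarith) (by rw [hre]; linarith)
    have n4 : ‖cexp (Real.pi * I * s' / 2)‖ ≤ Real.exp (2 * y) := by
      rw [Complex.norm_exp, Real.exp_le_exp]
      have : (Real.pi * I * s' / 2).re = -(Real.pi * s'.im) / 2 := by simp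
      rw [this]
      have h1 := neg_abs_le s'.im
      rw [him'] at h1
      have := Real.pi_pos
      have := Real.pi_le_four
      nlinarith
    have n5 : ‖cexp (-Real.pi * I * s' / 2)‖ ≤ Real.exp (2 * y) := by
      rw [Complex.norm_exp, Real.exp_le_exp]
      have : (-Real.pi * I * s' / 2).re = (Real.pi * s'.im / 2) := by simp
      rw [this]
      have h1 := le_abs_self s'.im
      rw [him'] at h1
      have := Real.pi_pos
      have := Real.pi_le_four
      nlinarith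
    have n6 := hLF (ZMod.dft Φ) (fun j => norm_dft_le hB j)
    have n7 := hLF (ZMod.dft fun x => Φ (-x)) (fun j => norm_dft_le (fun j => hB _) j)
    have n8 : ‖cexp (Real.pi * I * s' / 2) * LFunction (ZMod.dft Φ) s' +
        cexp (-Real.pi * I * s' / 2) * LFunction (ZMod.dft fun x => Φ (-x)) s'‖ ≤
        2 * (Real.exp (2 * y) * (100 * (N * B) * N * (1 + y) ^ 2)) := by
      refine (norm_add_le _ _).trans ?_
      rw [norm_mul, norm_mul, two_mul (Real.exp (2 * y) * _)]
      gcongr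
    have n9 : ‖s - 1‖ ≤ 2 * (1 + y) := by
      refine (Complex.norm_le_abs_re_add_abs_im _).trans ?_
      have e1 : (s - 1).im = s.im := by simp
      have e2 : |(s - 1).re| ≤ 2 := by
        rw [sub_re, one_re, abs_le]; constructor <;> linarith
      rw [e1]; linarith
    rw [Lst_of_ne Φ hsne, norm_mul]
    have hL : ‖LFunction Φ s‖ ≤ N * 1 * CG *
        (2 * (Real.exp (2 * y) * (100 * (N * B) * N * (1 + y) ^ 2))) := by
      rw [e0, LFunction_one_sub Φ hsn (Or.inr hs1), norm_mul, norm_mul, norm_mul]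
      gcongr
    calc ‖s - 1‖ * ‖LFunction Φ s‖ ≤ (2 * (1 + y)) * (N * 1 * CG *
          (2 * (Real.exp (2 * y) * (100 * (N * B) * N * (1 + y) ^ 2)))) := by gcongr
      _ = 2 * (N * CG * (2 * (100 * (N * B) * N))) * ((1 + y) ^ 3 * Real.exp (2 * y)) := by ring
      _ ≤ 2 * (N * CG * (2 * (100 * (N * B) * N))) *
          ((2 * Real.exp (y / 2)) ^ 3 * Real.exp (2 * y)) := by gcongr
      _ = 16 * (N * CG * (2 * (100 * (N * B) * N))) * Real.exp (7 / 2 * y) := by
          rw [mul_pow, ← Real.exp_nat_mul, mul_assoc (2 ^ 3), ← Real.exp_add]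
          have : ((3 : ℕ) : ℝ) * (y / 2) + 2 * y = 7 / 2 * y := by push_cast; ring
          rw [this]; ring
      _ ≤ C3 * Real.exp (4 * y) := by
          have : 0 ≤ N * CG * (2 * (100 * (N * B) * N)) := by positivity
          apply mul_le_mul
          · rw [hC3]; linarith
          · rw [Real.exp_le_exp]; linarith
          · positivity
          · positivity
      _ ≤ _ := by
          gcongr
          linarith [abs_nonneg C1]

end Pool.Agent.H95fa
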