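import Mathlib

/-!
Plancherel for functions in `L¹ ∩ L²`, and a change of variables.
-/

namespace Pool.Agent.H95fa

open MeasureTheory FourierTransform SchwartzMap Complex
open scoped ContDiff

/-- The `L²` Fourier transform is given by the Fourier integral on `L¹ ∩ L²`. -/
lemma fourier_L2_ae_eq {f : ℝ → ℂ} (h1 : Integrable f) (h2 : MemLp f 2) :
    (𝓕 (h2.toLp f) : Lp ℂ 2 (volume : Measure ℝ)) =ᵐ[volume] 𝓕 f := by
  have hloc : LocallyIntegrable ((𝓕 (h2.toLp f) : Lp ℂ 2 (volume : Measure ℝ)) : ℝ → ℂ) :=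
    (Lp.memLp _).locallyIntegrable (by norm_num)
  have hcont : Continuous (𝓕 f) := by
    have := VectorFourier.fourierIntegral_continuous (e := Real.fourierChar) (μ := volume)
      (L := innerₗ ℝ) Real.continuous_fourierChar continuous_inner h1
    exact this
  refine ae_eq_of_integral_contDiff_smul_eq hloc hcont.locallyIntegrable ?_
  intro g g_smooth g_cpt
  have hg₁ : HasCompactSupport (Complex.ofRealCLM ∘ g) := g_cpt.comp_left rfl
  have hg₂ : ContDiff ℝ ∞ (Complex.ofRealCLM ∘ g) := by fun_prop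
  set G : 𝓢(ℝ, ℂ) := hg₁.toSchwartzMap hg₂ with hG
  have hGa : ∀ x, G x = (g x : ℂ) := fun x => rfl
  have e1 : ∫ x, g x • ((𝓕 (h2.toLp f) : Lp ℂ 2 (volume : Measure ℝ)) : ℝ → ℂ) x =
      ∫ x, (𝓕 G) x • f x := by
    calc _ = ((𝓕 (h2.toLp f) : Lp ℂ 2 (volume : Measure ℝ)) : 𝓢'(ℝ, ℂ)) G := by
          rw [Lp.toTemperedDistribution_apply]
          refine integral_congr_ae (Filter.Eventually.of_forall fun x => ?_)
          simp [hGa]
      _ = (𝓕 ((h2.toLp f : Lp ℂ 2 (volume : Measure ℝ)) : 𝓢'(ℝ, ℂ))) G := by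
          rw [Lp.fourier_toTemperedDistribution_eq]
      _ = ((h2.toLp f : Lp ℂ 2 (volume : Measure ℝ)) : 𝓢'(ℝ, ℂ)) (𝓕 G) := rfl
      _ = _ := by
          rw [Lp.toTemperedDistribution_apply]
          refine integral_congr_ae ?_
          filter_upwards [h2.coeFn_toLp] with x hx
          rw [hx]
  have e2 : ∫ x, g x • 𝓕 f x = ∫ x, (𝓕 G) x • f x := by
    have h := VectorFourier.integral_fourierIntegral_smul_eq_flip (e := Real.fourierChar)
      (μ := volume) (ν := volume) (L := innerₗ ℝ) Real.continuous_fourierChar continuous_inner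
      (f := fun x => G x) (g := f) G.integrable h1
    have h3 : ∀ x, (𝓕 G) x =
        VectorFourier.fourierIntegral Real.fourierChar volume (innerₗ ℝ) (fun x => G x) x := by
      intro x
      rw [SchwartzMap.fourier_coe]
      rfl
    have h4 : ∀ x, 𝓕 f x =
        VectorFourier.fourierIntegral Real.fourierChar volume (innerₗ ℝ).flip f x := by
      intro x
      rw [flip_innerₗ]
      rfl
    simp_rw [h3, h, h4]
    refine integral_congr_ae (Filter.Eventually.of_forall fun x => ?_)
    simp [hGa]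
  rw [e1, e2]

lemma norm_toLp_sq {f : ℝ → ℂ} (h : MemLp f 2) : ‖h.toLp f‖ ^ 2 = ∫ x, ‖f x‖ ^ 2 := by
  rw [Lp.norm_toLp, h.eLpNorm_eq_integral_rpow_norm (by norm_num) (by norm_num)]
  have h0 : 0 ≤ ∫ x, ‖f x‖ ^ 2 := integral_nonneg fun x => by positivity
  have e : ∀ x, ‖f x‖ ^ (2 : ENNReal).toReal = ‖f x‖ ^ 2 := fun x => by
    rw [ENNReal.toReal_ofNat, Real.rpow_two]
  simp_rw [e]
  rw [ENNReal.toReal_ofReal (by positivity), ENNReal.toReal_ofNat, ← Real.rpow_two,
    ← Real.rpow_mul h0]
  norm_num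

/-- **Plancherel** on `L¹ ∩ L²`. -/
theorem plancherel {f : ℝ → ℂ} (h1 : Integrable f) (h2 : MemLp f 2) :
    MemLp (𝓕 f) 2 ∧ ∫ x, ‖𝓕 f x‖ ^ 2 = ∫ x, ‖f x‖ ^ 2 := by
  have hae := fourier_L2_ae_eq h1 h2
  have hm : MemLp (𝓕 f) 2 := (memLp_congr_ae hae).1 (Lp.memLp _)
  refine ⟨hm, ?_⟩
  have hn : ‖(𝓕 (h2.toLp f) : Lp ℂ 2 (volume : Measure ℝ))‖ = ‖h2.toLp f‖ :=
    Lp.norm_fourier_eq _
  have h3 : hm.toLp (𝓕 f) = (𝓕 (h2.toLp f) : Lp ℂ 2 (volume : Measure ℝ)) := by
    refine Lp.ext ?_
    exact hm.coeFn_toLp.trans hae.symm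
  rw [← norm_toLp_sq hm, ← norm_toLp_sq h2, h3, hn]

/-- Plancherel after a change of variables. -/
theorem plancherel_change {lam lam' : ℝ → ℝ} (hd : ∀ x, HasDerivAt lam (lam' x) x)
    (hpos : ∀ x, 0 < lam' x) {m : ℝ → ℂ} (hm : Integrable m)
    (hm2 : Integrable fun x => ‖m x‖ ^ 2 / lam' x) :
    Integrable (fun t : ℝ => ‖∫ x, m x * exp (-(I * lam x * t))‖ ^ 2) ∧
      ∫ t : ℝ, ‖∫ x, m x * exp (-(I * lam x * t))‖ ^ 2 =
        2 * Real.pi * ∫ x, ‖m x‖ ^ 2 / lam' x := by
  have hmono : StrictMono lam := strictMono_of_hasDerivAt_pos hd hpos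
  have hinj : Function.Injective lam := hmono.injective
  have hderiv : ∀ x ∈ (Set.univ : Set ℝ), HasDerivWithinAt lam (lam' x) Set.univ x :=
    fun x _ => (hd x).hasDerivWithinAt
  -- the transported function
  set h : ℝ → ℂ := fun u => m (Function.invFun lam u) / lam' (Function.invFun lam u) with hh
  have hinv : ∀ x, Function.invFun lam (lam x) = x := Function.leftInverse_invFun hinj
  set R : Set ℝ := lam '' Set.univ with hR
  have hRm : MeasurableSet R :=
    MeasurableSet.univ.image_of_continuousOn_injOn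
      (continuousOn_univ.2 (continuous_iff_continuousAt.2 fun x => (hd x).continuousAt))
      hinj.injOn
  have habs : ∀ x, |lam' x| = lam' x := fun x => abs_of_pos (hpos x)
  have hne : ∀ x, (lam' x : ℂ) ≠ 0 := fun x => by exact_mod_cast (hpos x).ne'
  -- integrability of `h`
  have i1 : IntegrableOn h R := by
    rw [hR, integrableOn_image_iff_integrableOn_abs_deriv_smul MeasurableSet.univ hderiv
      hinj.injOn, integrableOn_univ]
    refine hm.congr (Filter.Eventually.of_forall fun x => ?_)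
    simp only [hh, hinv, habs]
    rw [Complex.real_smul]
    field_simp [hne x]
  have i2 : IntegrableOn (fun u => ‖h u‖ ^ 2) R := by
    rw [hR, integrableOn_image_iff_integrableOn_abs_deriv_smul MeasurableSet.univ hderiv
      hinj.injOn, integrableOn_univ]
    refine hm2.congr (Filter.Eventually.of_forall fun x => ?_)
    simp only [hh, hinv, habs]
    rw [norm_div, Complex.norm_real, Real.norm_eq_abs, habs, smul_eq_mul]
    have := (hpos x).ne'
    field_simp
  set f : ℝ → ℂ := R.indicator h with hf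
  have hf1 : Integrable f := (integrable_indicator_iff hRm).2 i1
  have hf2' : Integrable fun u => ‖f u‖ ^ 2 := by
    have e : (fun u => ‖f u‖ ^ 2) = R.indicator (fun u => ‖h u‖ ^ 2) := by
      funext u
      by_cases hu : u ∈ R
      · simp [hf, hu]
      · simp [hf, hu]
    rw [e]
    exact (integrable_indicator_iff hRm).2 i2
  have hf2 : MemLp f 2 := (memLp_two_iff_integrable_sq_norm hf1.aestronglyMeasurable).2 hf2'
  obtain ⟨p1, p2⟩ := plancherel hf1 hf2
  have hsq : ∫ u, ‖f u‖ ^ 2 = ∫ x, ‖m x‖ ^ 2 / lam' x := by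
    have e : (fun u => ‖f u‖ ^ 2) = R.indicator (fun u => ‖h u‖ ^ 2) := by
      funext u
      by_cases hu : u ∈ R
      · simp [hf, hu]
      · simp [hf, hu]
    rw [e, integral_indicator hRm, hR,
      integral_image_eq_integral_abs_deriv_smul MeasurableSet.univ hderiv hinj.injOn,
      setIntegral_univ]
    refine integral_congr_ae (Filter.Eventually.of_forall fun x => ?_)
    simp only [hh, hinv, habs]
    rw [norm_div, Complex.norm_real, Real.norm_eq_abs, habs, smul_eq_mul]
    have := (hpos x).ne'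
    field_simp
  have hpsi : ∀ t : ℝ, ∫ x, m x * exp (-(I * lam x * t)) = 𝓕 f (t / (2 * Real.pi)) := by
    intro t
    rw [Real.fourier_eq']
    have e : (fun v : ℝ => exp (((-2 * Real.pi * inner ℝ v (t / (2 * Real.pi)) : ℝ) : ℂ) * I) •
        f v) = R.indicator (fun u => exp (-(I * u * t)) * h u) := by
      funext u
      have e1 : (((-2 * Real.pi * inner ℝ u (t / (2 * Real.pi)) : ℝ) : ℂ) * I) =
          -(I * u * t) := by
        have hpi : (Real.pi : ℂ) ≠ 0 := by exact_mod_cast Real.pi_ne_zero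
        have : inner ℝ u (t / (2 * Real.pi)) = t / (2 * Real.pi) * u := by
          simp [inner]
        rw [this]
        push_cast
        field_simp
      rw [e1]
      by_cases hu : u ∈ R
      · simp [hf, hu]
      · simp [hf, hu]
    rw [e, integral_indicator hRm, hR,
      integral_image_eq_integral_abs_deriv_smul MeasurableSet.univ hderiv hinj.injOn,
      setIntegral_univ]
    refine integral_congr_ae (Filter.Eventually.of_forall fun x => ?_)
    simp only [hh, hinv, habs]
    rw [Complex.real_smul]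
    field_simp [hne x]
  simp_rw [hpsi]
  have hpi : (0 : ℝ) < 2 * Real.pi := by positivity
  have i3 : Integrable fun x => ‖𝓕 f x‖ ^ 2 :=
    (memLp_two_iff_integrable_sq_norm p1.aestronglyMeasurable).1 p1
  constructor
  · exact i3.comp_div hpi.ne'
  · rw [← hsq, ← p2]
    have := Measure.integral_comp_div (fun x : ℝ => ‖𝓕 f x‖ ^ 2) (2 * Real.pi)
    rw [this, abs_of_pos hpi, smul_eq_mul]

end Pool.Agent.H95fa
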